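import Pool.Agent.Q196.HS.Defs
import Pool.Agent.Q196.SR.MainB

/-!
Positive curvature of a surface in three-space and normal curvature in four-space.
-/

set_option autoImplicit false

namespace Pool.Agent.Q196.HS

open scoped ContDiff RealInnerProductSpace ENNReal Topology
open MeasureTheory Set Metric Filter Pool.Agent.Y503.RB Pool.Agent.Q196.SR

/-- First fundamental form of a parametrised surface in three-space. -/
noncomputable def fst3 (p : ℂ → E3) (u v z : ℂ) : ℝ := ⟪fderiv ℝ p z u, fderiv ℝ p z v⟫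

/-- Area density of a parametrised surface in three-space. -/
noncomputable def area3 (p : ℂ → E3) (z : ℂ) : ℝ :=
  √(fst3 p 1 1 z * fst3 p Complex.I Complex.I z - fst3 p 1 Complex.I z ^ 2)

/-- Second fundamental form of a parametrised surface in three-space with respect to the normal
vector `n`. -/
noncomputable def sec3 (p : ℂ → E3) (n : E3) (u v z : ℂ) : ℝ :=
  ⟪n, fderiv ℝ (fun w => fderiv ℝ p w v) z u⟫

/-- Positive part of the Gauss curvature times the area density, for a parametrised surface in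
three-space (the supremum is over the two unit normal vectors, which give the same value). -/
noncomputable def posCurvAt (p : ℂ → E3) (z : ℂ) : ℝ≥0∞ :=
  ⨆ (n : E3) (_ : ‖n‖ = 1 ∧ ∀ v : ℂ, (⟪n, fderiv ℝ p z v⟫ : ℝ) = 0),
    ENNReal.ofReal ((sec3 p n 1 1 z * sec3 p n Complex.I Complex.I z -
      sec3 p n 1 Complex.I z ^ 2) / area3 p z)

/-- `pr3` as a continuous linear map. -/
noncomputable def pr3L : E4 →L[ℝ] E3 where
  toFun := pr3
  map_add' := pr3_add
  map_smul' := pr3_smul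
  cont := pr3_smooth.continuous

theorem pr3L_apply (x : E4) : pr3L x = pr3 x := rfl

/-- The horizontal part. -/
noncomputable def flatL : E4 →L[ℝ] E4 :=
  ContinuousLinearMap.id ℝ E4 - (EuclideanSpace.proj (𝕜 := ℝ) (3 : Fin 4) : E4 →L[ℝ] ℝ).smulRight e3

theorem flatL_apply (x : E4) : flatL x = x - x 3 • e3 := rfl

theorem flatL_three (x : E4) : flatL x 3 = 0 := by
  rw [flatL_apply]
  simp only [PiLp.sub_apply, PiLp.smul_apply, smul_eq_mul, e3_three]
  ring

theorem pr3_flatL (x : E4) : pr3 (flatL x) = pr3 x := by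
  rw [flatL_apply, sub_eq_add_neg, ← neg_smul, pr3_vert]

theorem inner_split (x y : E4) : (⟪x, y⟫ : ℝ) = ⟪pr3 x, pr3 y⟫ + x 3 * y 3 := by
  rw [PiLp.inner_apply, PiLp.inner_apply, Fin.sum_univ_castSucc]
  congr 1
  simp [Fin.last]
  ring

theorem inner_flat (x y : E4) : (⟪x, flatL y⟫ : ℝ) = ⟪pr3 x, pr3 y⟫ := by
  rw [inner_split, flatL_three, pr3_flatL]
  ring

/-- Inclusion of three-space. -/
noncomputable def up3 (q : E3) : E4 := WithLp.toLp 2 ![q 0, q 1, q 2, 0]

theorem pr3_up3 (q : E3) : pr3 (up3 q) = q := by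
  ext i
  fin_cases i <;> rfl

theorem up3_three (q : E3) : up3 q 3 = 0 := rfl

theorem inner_up3 (x : E4) (q : E3) : (⟪x, up3 q⟫ : ℝ) = ⟪pr3 x, q⟫ := by
  rw [inner_split, up3_three, pr3_up3]
  ring

theorem norm_up3 (q : E3) : ‖up3 q‖ = ‖q‖ := by
  have h : ‖up3 q‖ ^ 2 = ‖q‖ ^ 2 := by
    rw [← real_inner_self_eq_norm_sq, ← real_inner_self_eq_norm_sq, inner_up3, pr3_up3]
  exact (sq_eq_sq₀ (norm_nonneg _) (norm_nonneg _)).mp h

theorem exists_normal {L : ℂ →L[ℝ] E3} (hL : Function.Injective L) :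
    ∃ n : E3, ‖n‖ = 1 ∧ (∀ v, (⟪n, L v⟫ : ℝ) = 0) ∧
      ∀ y : E3, (∀ v, (⟪y, L v⟫ : ℝ) = 0) → y = (⟪y, n⟫ : ℝ) • n := by
  set K : Submodule ℝ E3 := LinearMap.range (L : ℂ →ₗ[ℝ] E3) with hK
  have h1 : Module.finrank ℝ K = 2 := by
    rw [hK, LinearMap.finrank_range_of_inj (f := (L : ℂ →ₗ[ℝ] E3)) hL,
      Complex.finrank_real_complex]
  have h2 : Module.finrank ℝ Kᗮ = 1 := by
    have := Submodule.finrank_add_finrank_orthogonal K
    rw [h1, finrank_euclideanSpace_fin] at this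
    omega
  obtain ⟨v, hv0, hv⟩ := finrank_eq_one_iff'.mp h2
  have hmem : ∀ y : E3, (∀ w, (⟪y, L w⟫ : ℝ) = 0) → y ∈ Kᗮ := by
    intro y hy
    rw [Submodule.mem_orthogonal]
    rintro _ ⟨w, rfl⟩
    rw [real_inner_comm]
    exact hy w
  have hperp : ∀ w, (⟪(v : E3), L w⟫ : ℝ) = 0 := by
    intro w
    have := (Submodule.mem_orthogonal K (v : E3)).mp v.2 (L w) ⟨w, rfl⟩
    rwa [real_inner_comm] at this
  have hn : 0 < ‖(v : E3)‖ := norm_pos_iff.mpr fun h => hv0 (Subtype.ext h)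
  refine ⟨‖(v : E3)‖⁻¹ • (v : E3), ?_, ?_, ?_⟩
  · rw [norm_smul, norm_inv, norm_norm, inv_mul_cancel₀ hn.ne']
  · intro w
    rw [real_inner_smul_left, hperp w, mul_zero]
  · intro y hy
    obtain ⟨c, hc⟩ := hv ⟨y, hmem y hy⟩
    have hc' : c • (v : E3) = y := congrArg Subtype.val hc
    rw [← hc', real_inner_smul_left, real_inner_smul_right, real_inner_self_eq_norm_sq, smul_smul]
    congr 1
    field_simp

/-- Integration over the normal circle. -/
theorem ncurvAt_le_gen {φ : ℂ → E4} {z : ℂ} {w : E4} {c : ℝ} (hc : 0 ≤ c) (hw : ‖w‖ ≤ 1)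
    (h : ∀ ν : E4, (∀ v : ℂ, (⟪ν, d1 φ v z⟫ : ℝ) = 0) → ndens φ ν z ≤ ⟪ν, w⟫ ^ 2 * c) :
    ncurvAt φ z ≤ ENNReal.ofReal (Real.pi / 2) * ENNReal.ofReal c := by
  unfold ncurvAt
  refine iSup₂_le fun L hL => ?_
  set g : ℝ → ℝ≥0∞ := fun θ => ENNReal.ofReal (ndens φ (L ⟨Real.cos θ, Real.sin θ⟩) z) with hg
  have hpi := Real.pi_pos
  have hsplit : ∫⁻ θ in Ico 0 (2 * Real.pi), g θ =
      (∫⁻ θ in Ico 0 Real.pi, g θ) + ∫⁻ θ in Ico 0 Real.pi, g (θ + Real.pi) := by
    have h1 : Ico 0 (2 * Real.pi) = Ico 0 Real.pi ∪ Ico Real.pi (2 * Real.pi) :=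
      (Ico_union_Ico_eq_Ico hpi.le (by linarith)).symm
    rw [h1, lintegral_union measurableSet_Ico (by
      rw [Set.disjoint_left]
      intro x hx hx2
      exact absurd hx.2 (not_lt.mpr hx2.1))]
    congr 1
    have h2 := (measurePreserving_add_right (volume : Measure ℝ) Real.pi).setLIntegral_comp_emb
      (MeasurableEquiv.addRight Real.pi).measurableEmbedding g (Ico 0 Real.pi)
    rw [h2, image_add_const_Ico, zero_add]
    congr 3
    ring
  have hneg : ∀ θ : ℝ, g (θ + Real.pi) =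
      ENNReal.ofReal (ndens φ (-(L ⟨Real.cos θ, Real.sin θ⟩)) z) := by
    intro θ
    simp only [hg]
    have h3 : (⟨-Real.cos θ, -Real.sin θ⟩ : ℂ) = -⟨Real.cos θ, Real.sin θ⟩ := rfl
    rw [Real.cos_add_pi, Real.sin_add_pi, ← L.map_neg, h3]
  set a : ℝ := ⟪L 1, w⟫ with ha
  set b : ℝ := ⟪L Complex.I, w⟫ with hb
  have hLt : ∀ θ : ℝ, (⟪L ⟨Real.cos θ, Real.sin θ⟩, w⟫ : ℝ) =
      a * Real.cos θ + b * Real.sin θ := by
    intro θ
    have h2 : ∀ x y : ℝ, (⟨x, y⟩ : ℂ) = x • (1 : ℂ) + y • Complex.I := by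
      intro x y
      apply Complex.ext <;> simp
    rw [h2, L.map_add, L.map_smul, L.map_smul, inner_add_left, inner_smul_left, inner_smul_left]
    simp
    ring
  have hbess : a ^ 2 + b ^ 2 ≤ 1 := by
    have i1 : (⟪L 1, L 1⟫ : ℝ) = 1 := by
      rw [L.inner_map_map]
      simp [Complex.inner]
    have i2 : (⟪L Complex.I, L Complex.I⟫ : ℝ) = 1 := by
      rw [L.inner_map_map]
      simp [Complex.inner]
    have i3 : (⟪L 1, L Complex.I⟫ : ℝ) = 0 := by
      rw [L.inner_map_map]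
      simp [Complex.inner]
    have h1 : (0 : ℝ) ≤ ‖w - (a • L 1 + b • L Complex.I)‖ ^ 2 := by positivity
    rw [← real_inner_self_eq_norm_sq] at h1
    simp only [inner_sub_left, inner_sub_right, inner_add_left, inner_add_right, inner_smul_left,
      inner_smul_right, conj_trivial, i1, i2, i3, real_inner_comm (L 1) (L Complex.I),
      real_inner_comm (L 1) w, real_inner_comm (L Complex.I) w] at h1
    rw [← ha, ← hb, real_inner_self_eq_norm_sq] at h1
    have h2 : ‖w‖ ^ 2 ≤ 1 := by nlinarith [norm_nonneg w]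
    nlinarith
  have hpair : ∀ ν : E4, (∀ v : ℂ, (⟪ν, d1 φ v z⟫ : ℝ) = 0) →
      ENNReal.ofReal (ndens φ ν z) + ENNReal.ofReal (ndens φ (-ν) z) ≤
        ENNReal.ofReal (⟪ν, w⟫ ^ 2 * c) := by
    intro ν hν
    have hν' : ∀ v : ℂ, (⟪-ν, d1 φ v z⟫ : ℝ) = 0 := fun v => by
      rw [inner_neg_left, hν v, neg_zero]
    by_cases hN : NegDef φ ν z
    · rw [ndens_neg hN, ENNReal.ofReal_zero, add_zero]
      exact ENNReal.ofReal_le_ofReal (h ν hν)
    · have h1 : ndens φ ν z = 0 := by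
        unfold ndens
        rw [if_neg hN]
      rw [h1, ENNReal.ofReal_zero, zero_add]
      have h2 := h (-ν) hν'
      rw [inner_neg_left, neg_sq] at h2
      exact ENNReal.ofReal_le_ofReal h2
  calc ∫⁻ θ in Ico 0 (2 * Real.pi), g θ
      = (∫⁻ θ in Ico 0 Real.pi, g θ) + ∫⁻ θ in Ico 0 Real.pi, g (θ + Real.pi) := hsplit
    _ ≤ ∫⁻ θ in Ico 0 Real.pi, (g θ + g (θ + Real.pi)) := le_lintegral_add _ _
    _ ≤ ∫⁻ θ in Ico 0 Real.pi,
          ENNReal.ofReal ((a * Real.cos θ + b * Real.sin θ) ^ 2 * c) := by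
        refine lintegral_mono fun θ => ?_
        beta_reduce
        rw [hneg, ← hLt]
        exact hpair _ (hL _)
    _ = ENNReal.ofReal ((a ^ 2 + b ^ 2) * (Real.pi / 2) * c) := by
        rw [← int_half, ← intervalIntegral.integral_mul_const,
          intervalIntegral.integral_of_le hpi.le, integral_Ioc_eq_integral_Ioo,
          ← integral_Ico_eq_integral_Ioo, ofReal_integral_eq_lintegral_ofReal]
        · have hc : Continuous fun θ : ℝ =>
              (a * Real.cos θ + b * Real.sin θ) ^ 2 * c := by fun_prop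
          exact (hc.continuousOn.integrableOn_Icc (a := 0) (b := Real.pi)).mono_set
            Ico_subset_Icc_self
        · exact Eventually.of_forall fun θ => by positivity
    _ ≤ ENNReal.ofReal (Real.pi / 2) * ENNReal.ofReal c := by
        rw [← ENNReal.ofReal_mul (by positivity)]
        refine ENNReal.ofReal_le_ofReal ?_
        have h1 : 0 ≤ Real.pi / 2 * c := by positivity
        nlinarith [mul_le_mul_of_nonneg_right hbess h1]

theorem pr3_fderiv {φ : ℂ → E4} {z : ℂ} (hφ : DifferentiableAt ℝ φ z) (u : ℂ) :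
    fderiv ℝ (fun w => pr3 (φ w)) z u = pr3 (fderiv ℝ φ z u) := by
  have h1 : HasFDerivAt (fun w => pr3 (φ w)) (pr3L.comp (fderiv ℝ φ z)) z :=
    pr3L.hasFDerivAt.comp z hφ.hasFDerivAt
  rw [h1.fderiv]
  rfl

theorem flat_fderiv {φ : ℂ → E4} {z : ℂ} (hφ : DifferentiableAt ℝ φ z) (c : ℝ) (u : ℂ) :
    fderiv ℝ (fun w => c • flatL (φ w)) z u = c • flatL (fderiv ℝ φ z u) := by
  have h1 : HasFDerivAt (fun w => c • flatL (φ w)) (c • flatL.comp (fderiv ℝ φ z)) z :=
    (flatL.hasFDerivAt.comp z hφ.hasFDerivAt).const_smul c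
  rw [h1.fderiv]
  rfl

theorem pr3_fderiv2 {φ : ℂ → E4} {z : ℂ} (hφ : ContDiffAt ℝ ∞ φ z) (u v : ℂ) :
    fderiv ℝ (fun w => fderiv ℝ (fun w => pr3 (φ w)) w v) z u = pr3 (d2 φ u v z) := by
  have h1 : (fun w => fderiv ℝ (fun w => pr3 (φ w)) w v) =ᶠ[𝓝 z]
      fun w => pr3 (fderiv ℝ φ w v) := by
    filter_upwards [evd hφ] with w hw using pr3_fderiv hw v
  rw [h1.fderiv_eq]
  have h2 : HasFDerivAt (fun w => fderiv ℝ φ w v) (fderiv ℝ (fun w => fderiv ℝ φ w v) z) z :=
    (((smf hφ).clm_apply contDiffAt_const).differentiableAt (by simp)).hasFDerivAt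
  have h3 : HasFDerivAt (fun w => pr3 (fderiv ℝ φ w v))
      (pr3L.comp (fderiv ℝ (fun w => fderiv ℝ φ w v) z)) z := pr3L.hasFDerivAt.comp z h2
  rw [h3.fderiv]
  rfl

theorem flat_fderiv2 {φ : ℂ → E4} {z : ℂ} (hφ : ContDiffAt ℝ ∞ φ z) (c : ℝ) (u v : ℂ) :
    d2 (fun w => c • flatL (φ w)) u v z = c • flatL (d2 φ u v z) := by
  unfold d2
  have h1 : (fun w => fderiv ℝ (fun w => c • flatL (φ w)) w v) =ᶠ[𝓝 z]
      fun w => c • flatL (fderiv ℝ φ w v) := by
    filter_upwards [evd hφ] with w hw using flat_fderiv hw c v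
  rw [h1.fderiv_eq]
  have h2 : HasFDerivAt (fun w => fderiv ℝ φ w v) (fderiv ℝ (fun w => fderiv ℝ φ w v) z) z :=
    (((smf hφ).clm_apply contDiffAt_const).differentiableAt (by simp)).hasFDerivAt
  have h3 : HasFDerivAt (fun w => c • flatL (fderiv ℝ φ w v))
      (c • flatL.comp (fderiv ℝ (fun w => fderiv ℝ φ w v) z)) z :=
    (flatL.hasFDerivAt.comp z h2).const_smul c
  rw [h3.fderiv]
  rfl

/-- The curvature of the horizontal part in four-space. -/
theorem ncurv_flat {φ : ℂ → E4} {z : ℂ} (hφ : ContDiffAt ℝ ∞ φ z) {c : ℝ} (hc : 0 < c)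
    (hi : Function.Injective (fderiv ℝ (fun w => pr3 (φ w)) z)) :
    ncurvAt (fun w => c • flatL (φ w)) z ≤
      ENNReal.ofReal (Real.pi / 2) * posCurvAt (fun w => pr3 (φ w)) z := by
  have hφ1 : DifferentiableAt ℝ φ z := hφ.differentiableAt (by simp)
  obtain ⟨n, hn1, hn2, hn3⟩ := exists_normal hi
  set p : ℂ → E3 := fun w => pr3 (φ w) with hp
  set D : ℝ := sec3 p n 1 1 z * sec3 p n Complex.I Complex.I z - sec3 p n 1 Complex.I z ^ 2 with hD
  have h0 : ENNReal.ofReal (D / area3 p z) ≤ posCurvAt p z :=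
    le_iSup₂_of_le (f := fun (n : E3) (_ : ‖n‖ = 1 ∧ ∀ v : ℂ, (⟪n, fderiv ℝ p z v⟫ : ℝ) = 0) =>
      ENNReal.ofReal ((sec3 p n 1 1 z * sec3 p n Complex.I Complex.I z -
      sec3 p n 1 Complex.I z ^ 2) / area3 p z)) n ⟨hn1, hn2⟩ le_rfl
  have h1 : ncurvAt (fun w => c • flatL (φ w)) z ≤
      ENNReal.ofReal (Real.pi / 2) * ENNReal.ofReal (max 0 (D / area3 p z)) := by
    refine ncurvAt_le_gen (w := up3 n) (le_max_left _ _) (by rw [norm_up3, hn1]) fun ν hν => ?_
    set k : ℝ := ⟪ν, up3 n⟫ with hk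
    have hk2 : k = ⟪pr3 ν, n⟫ := inner_up3 ν n
    have hpν : pr3 ν = k • n := by
      rw [hk2]
      refine hn3 _ fun v => ?_
      have h2 := hν v
      unfold d1 at h2
      rw [flat_fderiv hφ1, inner_smul_right, inner_flat] at h2
      rw [pr3_fderiv hφ1]
      exact (mul_eq_zero.mp h2).resolve_left hc.ne'
    have hs : ∀ u v : ℂ, sff (fun w => c • flatL (φ w)) ν u v z = c * k * sec3 p n u v z := by
      intro u v
      unfold sff sec3
      rw [flat_fderiv2 hφ, inner_smul_right, inner_flat, hpν, real_inner_smul_left,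
        pr3_fderiv2 hφ]
      ring
    have hf : ∀ u v : ℂ, fff (fun w => c • flatL (φ w)) u v z = c ^ 2 * fst3 p u v z := by
      intro u v
      unfold fff fst3 d1
      rw [flat_fderiv hφ1, flat_fderiv hφ1, inner_smul_left, inner_smul_right, inner_flat,
        pr3_flatL, pr3_fderiv hφ1, pr3_fderiv hφ1]
      simp
      ring
    have hsD : sffDet (fun w => c • flatL (φ w)) ν z = c ^ 2 * (k ^ 2 * D) := by
      unfold sffDet
      rw [hs, hs, hs, hD]
      ring
    have hfD : √(fffDet (fun w => c • flatL (φ w)) z) = c ^ 2 * area3 p z := by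
      unfold fffDet area3
      rw [hf, hf, hf]
      have : c ^ 2 * fst3 p 1 1 z * (c ^ 2 * fst3 p Complex.I Complex.I z) -
          (c ^ 2 * fst3 p 1 Complex.I z) ^ 2 = (c ^ 2) ^ 2 *
          (fst3 p 1 1 z * fst3 p Complex.I Complex.I z - fst3 p 1 Complex.I z ^ 2) := by ring
      rw [this, Real.sqrt_mul (by positivity), Real.sqrt_sq (by positivity)]
    unfold ndens
    split_ifs with hN
    · rw [hsD, hfD, mul_div_mul_left _ _ (by positivity), mul_div_assoc]
      exact mul_le_mul_of_nonneg_left (le_max_right _ _) (by positivity)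
    · have := le_max_left 0 (D / area3 p z)
      positivity
  refine h1.trans (mul_le_mul_right ?_ _)
  rcases le_total (D / area3 p z) 0 with h2 | h2
  · rw [max_eq_left h2, ENNReal.ofReal_zero]
    exact zero_le
  · rw [max_eq_right h2]
    exact h0

end Pool.Agent.Q196.HS
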