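import Pool.Agent.Q196.HS.GenR

/-!
The half-space model: `E4` with height function `x 3`, vertical projection to three-space.
-/

set_option autoImplicit false

namespace Pool.Agent.Q196.HS

open scoped ContDiff RealInnerProductSpace ENNReal Topology
open MeasureTheory Set Metric Filter Pool.Agent.Y503.RB Pool.Agent.Q196.SR

/-- Three-space, the boundary of the half-space `{x : E4 | 0 ≤ x 3}`. -/
abbrev E3 : Type := EuclideanSpace ℝ (Fin 3)

/-- Vertical projection of four-space to three-space (it forgets the height `x 3`). -/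
noncomputable def pr3 (x : E4) : E3 := WithLp.toLp 2 (fun i : Fin 3 => x i.castSucc)

/-- `G` is a diffeomorphism of the closed half-space, the identity on the boundary, which moves all
points vertically. -/
structure HalfDiffeo (G : E4 → E4) : Prop where
  bij : BijOn G {x | 0 ≤ x 3} {x | 0 ≤ x 3}
  smooth : ∀ x : E4, 0 ≤ x 3 → ContDiffAt ℝ ∞ G x
  imm : ∀ x : E4, 0 ≤ x 3 → Function.Injective (fderiv ℝ G x)
  fix : ∀ x : E4, x 3 = 0 → G x = x
  vert : ∀ x : E4, 0 ≤ x 3 → pr3 (G x) = pr3 x

/-- `φ` parametrises a slice disc in the closed half-space: a smooth properly embedded disc,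
transversal to the boundary hyperplane. -/
structure HDisc (φ : ℂ → E4) : Prop where
  smooth : ∃ W : Set ℂ, IsOpen W ∧ closedBall 0 1 ⊆ W ∧ ContDiffOn ℝ ∞ φ W
  inj : InjOn φ (closedBall 0 1)
  imm : ∀ z ∈ closedBall (0 : ℂ) 1, Function.Injective (fderiv ℝ φ z)
  inside : ∀ z ∈ ball (0 : ℂ) 1, 0 < φ z 3
  bdry : ∀ z ∈ sphere (0 : ℂ) 1, φ z 3 = 0
  trans : ∀ z ∈ sphere (0 : ℂ) 1, fderiv ℝ (fun w => φ w 3) z z < 0

/-- The height is a Morse function in the interior of the disc with at most `m` local minima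
there. The function whose local maxima are counted in the usual description of ribbon discs in the
ball is a decreasing function of the height in the half-space model. -/
structure MorseHDisc (φ : ℂ → E4) (m : ℕ) : Prop where
  morse : ∀ z ∈ ball (0 : ℂ) 1, fderiv ℝ (fun w => φ w 3) z = 0 → ∀ u : ℂ,
    (∀ v : ℂ, fderiv ℝ (fderiv ℝ (fun w => φ w 3)) z u v = 0) → u = 0
  minima : {z : ℂ | z ∈ ball (0 : ℂ) 1 ∧ IsLocalMin (fun w => φ w 3) z}.encard ≤ m

/-- The vertical unit vector. -/
noncomputable def e3 : E4 := EuclideanSpace.single 3 1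

/-- Vertical map. -/
noncomputable def Gv (θ : E4 → ℝ) (x : E4) : E4 := x + (x 3 * (Real.exp (-θ x) - 1)) • e3

theorem e3_three : e3 3 = 1 := by simp [e3]

theorem e3_castSucc (i : Fin 3) : e3 i.castSucc = 0 := by
  fin_cases i <;> simp [e3]

theorem Gv_three (θ : E4 → ℝ) (x : E4) : Gv θ x 3 = x 3 * Real.exp (-θ x) := by
  simp only [Gv, PiLp.add_apply, PiLp.smul_apply, smul_eq_mul, e3_three]
  ring

theorem Gv_castSucc (θ : E4 → ℝ) (x : E4) (i : Fin 3) : Gv θ x i.castSucc = x i.castSucc := by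
  simp only [Gv, PiLp.add_apply, PiLp.smul_apply, smul_eq_mul, e3_castSucc]
  ring

theorem pr3_Gv (θ : E4 → ℝ) (x : E4) : pr3 (Gv θ x) = pr3 x := by
  unfold pr3
  congr 1
  funext i
  exact Gv_castSucc θ x i

theorem pr3_apply (x : E4) (i : Fin 3) : pr3 x i = x i.castSucc := rfl

theorem eq_add_of_pr3 {x y : E4} (h : pr3 x = pr3 y) : y = x + (y 3 - x 3) • e3 := by
  ext j
  have h3 : ∀ i : Fin 3, x i.castSucc = y i.castSucc := fun i => by
    rw [← pr3_apply, ← pr3_apply, h]
  refine Fin.lastCases ?_ (fun i => ?_) j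
  · show y 3 = (x + (y 3 - x 3) • e3) 3
    simp only [PiLp.add_apply, PiLp.smul_apply, smul_eq_mul, e3_three]
    ring
  · simp only [PiLp.add_apply, PiLp.smul_apply, smul_eq_mul, e3_castSucc]
    rw [h3 i]
    ring

theorem pr3_add (x y : E4) : pr3 (x + y) = pr3 x + pr3 y := rfl

theorem pr3_smul (c : ℝ) (x : E4) : pr3 (c • x) = c • pr3 x := rfl

theorem pr3_e3 : pr3 e3 = 0 := by
  ext i
  exact e3_castSucc i

theorem pr3_vert (x : E4) (s : ℝ) : pr3 (x + s • e3) = pr3 x := by
  rw [pr3_add, pr3_smul, pr3_e3, smul_zero, add_zero]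

theorem pr3_smooth : ContDiff ℝ ∞ (pr3 : E4 → E3) := by
  rw [contDiff_euclidean]
  intro i
  have : (fun x : E4 => pr3 x i) = fun x : E4 => (EuclideanSpace.proj (𝕜 := ℝ) i.castSucc :
      E4 →L[ℝ] ℝ) x := rfl
  rw [this]
  exact (EuclideanSpace.proj (𝕜 := ℝ) i.castSucc : E4 →L[ℝ] ℝ).contDiff

theorem three_smooth : ContDiff ℝ ∞ (fun x : E4 => x 3) :=
  (EuclideanSpace.proj (𝕜 := ℝ) (3 : Fin 4) : E4 →L[ℝ] ℝ).contDiff

theorem Gv_smooth {θ : E4 → ℝ} (hs : ContDiff ℝ ∞ θ) : ContDiff ℝ ∞ (Gv θ) := by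
  unfold Gv
  exact contDiff_id.add ((three_smooth.mul (hs.neg.exp.sub contDiff_const)).smul contDiff_const)

/-- Data of the vertical maps which we use. -/
structure Vert (θ : E4 → ℝ) (b : ℝ) : Prop where
  smooth : ContDiff ℝ ∞ θ
  pos : 0 < b
  eq : ∀ (x : E4) (s : ℝ), θ (x + s • e3) = θ x - b * s

theorem Vert.dvert {θ : E4 → ℝ} {b : ℝ} (h : Vert θ b) (x : E4) : fderiv ℝ θ x e3 = -b := by
  have h1 : HasDerivAt (fun s : ℝ => θ (x + s • e3)) (fderiv ℝ θ x e3) 0 := by
    have h2 : HasFDerivAt θ (fderiv ℝ θ x) (x + (0 : ℝ) • e3) := by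
      rw [zero_smul, add_zero]
      exact (h.smooth.differentiable (by simp) x).hasFDerivAt
    have h3 : HasDerivAt (fun s : ℝ => x + s • e3) e3 0 := by
      have := ((hasDerivAt_id (0 : ℝ)).smul_const e3).const_add x
      simpa using this
    exact h2.comp_hasDerivAt (0 : ℝ) h3
  have h2 : HasDerivAt (fun s : ℝ => θ (x + s • e3)) (-b) 0 := by
    have h3 : (fun s : ℝ => θ (x + s • e3)) = fun s => θ x - b * s := funext fun s => h.eq x s
    rw [h3]
    simpa using ((hasDerivAt_id (0 : ℝ)).const_mul b).const_sub (θ x)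
  exact h1.unique h2

theorem Gv_fderiv {θ : E4 → ℝ} (hs : ContDiff ℝ ∞ θ) (x v : E4) :
    fderiv ℝ (Gv θ) x v = v + (v 3 * (Real.exp (-θ x) - 1) -
      x 3 * Real.exp (-θ x) * fderiv ℝ θ x v) • e3 := by
  have hθ : HasFDerivAt θ (fderiv ℝ θ x) x := (hs.differentiable (by simp) x).hasFDerivAt
  have h3 : HasFDerivAt (fun y : E4 => y 3) (EuclideanSpace.proj (𝕜 := ℝ) (3 : Fin 4) : E4 →L[ℝ] ℝ)
      x := (EuclideanSpace.proj (𝕜 := ℝ) (3 : Fin 4) : E4 →L[ℝ] ℝ).hasFDerivAt
  have h4 : HasFDerivAt (fun y : E4 => y 3 * (Real.exp (-θ y) - 1)) _ x :=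
    h3.mul (hθ.neg.exp.sub_const 1)
  have h5 : HasFDerivAt (Gv θ) _ x := (hasFDerivAt_id x).add (h4.smul_const e3)
  rw [h5.fderiv]
  simp only [ContinuousLinearMap.add_apply, ContinuousLinearMap.smulRight_apply,
    ContinuousLinearMap.smul_apply, ContinuousLinearMap.neg_apply, smul_eq_mul,
    PiLp.proj_apply, ContinuousLinearMap.id_apply, Pi.neg_apply]
  congr 2
  ring

theorem Vert.imm {θ : E4 → ℝ} {b : ℝ} (h : Vert θ b) {x : E4} (hx : 0 < 1 + b * x 3) :
    Function.Injective (fderiv ℝ (Gv θ) x) := by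
  rw [injective_iff_map_eq_zero]
  intro v hv
  rw [Gv_fderiv h.smooth] at hv
  have h1 : ∀ i : Fin 3, v i.castSucc = 0 := by
    intro i
    have := congrArg (fun w : E4 => w i.castSucc) hv
    simpa [e3_castSucc] using this
  have h2 : v = v 3 • e3 := by
    have := eq_add_of_pr3 (x := 0) (y := v) (by
      ext i
      rw [pr3_apply, pr3_apply, h1 i]
      rfl)
    simpa using this
  have h3 := congrArg (fun w : E4 => w 3) hv
  simp only [PiLp.add_apply, PiLp.smul_apply, smul_eq_mul, e3_three] at h3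
  have h4 : fderiv ℝ θ x v = -(v 3 * b) := by
    rw [h2, map_smul, h.dvert]
    simp [e3_three]
  rw [h4] at h3
  have h5 : v 3 * (Real.exp (-θ x) * (1 + b * x 3)) = 0 := by
    have : (0 : E4) 3 = 0 := rfl
    rw [this] at h3
    linarith
  have h6 : v 3 = 0 := (mul_eq_zero.mp h5).resolve_right (by positivity)
  rw [h2, h6, zero_smul]

/-- Injectivity of the vertical map. -/
theorem Vert.injOn {θ : E4 → ℝ} {b : ℝ} (h : Vert θ b) :
    InjOn (Gv θ) {x | 0 < 1 + b * x 3} := by
  intro x hx y hy hxy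
  have h1 : pr3 x = pr3 y := by rw [← pr3_Gv θ x, ← pr3_Gv θ y, hxy]
  have h2 := eq_add_of_pr3 h1
  set s := y 3 - x 3 with hs
  have h3 : x 3 * Real.exp (-θ x) = y 3 * Real.exp (-θ y) := by
    rw [← Gv_three, ← Gv_three, hxy]
  have h4 : θ y = θ x - b * s := by rw [h2, h.eq]
  have hmono : StrictMonoOn (fun r : ℝ => r * Real.exp (b * r)) {r | 0 < 1 + b * r} := by
    have hb := h.pos
    have hc : {r : ℝ | 0 < 1 + b * r} = Ioi (-b⁻¹) := by
      ext r
      simp only [mem_ofPred_eq, mem_Ioi]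
      constructor
      · intro hr
        have : b * (-b⁻¹) < b * r := by
          rw [mul_neg, mul_inv_cancel₀ hb.ne']
          linarith
        exact lt_of_mul_lt_mul_left this hb.le
      · intro hr
        have : b * (-b⁻¹) < b * r := mul_lt_mul_of_pos_left hr hb
        rw [mul_neg, mul_inv_cancel₀ hb.ne'] at this
        linarith
    have hcv : Convex ℝ {r : ℝ | 0 < 1 + b * r} := by
      rw [hc]
      exact convex_Ioi _
    refine strictMonoOn_of_deriv_pos hcv (by fun_prop) fun r hr => ?_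
    have hr0 : r ∈ {r : ℝ | 0 < 1 + b * r} := interior_subset hr
    have hr' : 0 < 1 + b * r := hr0
    have h5 : HasDerivAt (fun r : ℝ => r * Real.exp (b * r))
        (1 * Real.exp (b * r) + r * (Real.exp (b * r) * (b * 1))) r :=
      (hasDerivAt_id r).mul (((hasDerivAt_id r).const_mul b).exp)
    rw [h5.deriv]
    have : 1 * Real.exp (b * r) + r * (Real.exp (b * r) * (b * 1)) =
      Real.exp (b * r) * (1 + b * r) := by ring
    rw [this]
    positivity
  have h5 : x 3 * Real.exp (b * x 3) = y 3 * Real.exp (b * y 3) := by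
    have h6 : Real.exp (-θ y) = Real.exp (-θ x) * Real.exp (b * s) := by
      rw [h4, ← Real.exp_add]
      congr 1
      ring
    rw [h6] at h3
    have h7 : Real.exp (b * y 3) = Real.exp (b * x 3) * Real.exp (b * s) := by
      rw [← Real.exp_add, hs]
      congr 1
      ring
    rw [h7]
    have h8 : x 3 = y 3 * Real.exp (b * s) := by
      have h9 : (x 3 - y 3 * Real.exp (b * s)) * Real.exp (-θ x) = 0 := by linarith
      have := (mul_eq_zero.mp h9).resolve_right (Real.exp_pos _).ne'
      linarith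
    calc x 3 * Real.exp (b * x 3) = (y 3 * Real.exp (b * s)) * Real.exp (b * x 3) := by
          rw [← h8]
      _ = y 3 * (Real.exp (b * x 3) * Real.exp (b * s)) := by ring
  have h6 : x 3 = y 3 := hmono.injOn hx hy h5
  rw [h2, hs, h6, sub_self, zero_smul, add_zero]

theorem Vert.half {θ : E4 → ℝ} {b : ℝ} (h : Vert θ b) : HalfDiffeo (Gv θ) where
  bij := by
    have hb := h.pos
    refine ⟨fun x hx => ?_, fun x hx y hy hxy => ?_, fun y hy => ?_⟩
    · show 0 ≤ Gv θ x 3
      rw [Gv_three]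
      exact mul_nonneg hx (Real.exp_pos _).le
    · have hx' : (0 : ℝ) ≤ x 3 := hx
      have hy' : (0 : ℝ) ≤ y 3 := hy
      refine h.injOn ?_ ?_ hxy
      · show 0 < 1 + b * x 3
        positivity
      · show 0 < 1 + b * y 3
        positivity
    · have hy' : (0 : ℝ) ≤ y 3 := hy
      -- base point
      set p : E4 := y + (-y 3) • e3 with hp
      have hp3 : p 3 = 0 := by
        simp only [hp, PiLp.add_apply, PiLp.smul_apply, smul_eq_mul, e3_three]
        ring
      have hcont : Continuous fun s : ℝ => s * Real.exp (-(θ p - b * s)) := by fun_prop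
      have hb2 : y 3 ≤ (y 3 * Real.exp (θ p)) * Real.exp (-(θ p - b * (y 3 * Real.exp (θ p)))) := by
        have h1 : Real.exp (-(θ p - b * (y 3 * Real.exp (θ p)))) =
            Real.exp (-θ p) * Real.exp (b * (y 3 * Real.exp (θ p))) := by
          rw [← Real.exp_add]
          congr 1
          ring
        rw [h1]
        have h2 : y 3 * Real.exp (θ p) * (Real.exp (-θ p) *
            Real.exp (b * (y 3 * Real.exp (θ p)))) =
            y 3 * Real.exp (b * (y 3 * Real.exp (θ p))) * (Real.exp (θ p) * Real.exp (-θ p)) := by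
          ring
        rw [h2, ← Real.exp_add, add_neg_cancel, Real.exp_zero, mul_one]
        have h3 : 1 ≤ Real.exp (b * (y 3 * Real.exp (θ p))) := by
          rw [Real.one_le_exp_iff]
          positivity
        nlinarith
      have hmem : y 3 ∈ Icc ((0 : ℝ) * Real.exp (-(θ p - b * 0)))
          ((y 3 * Real.exp (θ p)) * Real.exp (-(θ p - b * (y 3 * Real.exp (θ p))))) :=
        ⟨by rw [zero_mul]; exact hy', hb2⟩
      obtain ⟨s, hs, hsy⟩ := intermediate_value_Icc (a := (0 : ℝ)) (b := y 3 * Real.exp (θ p))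
        (by positivity) hcont.continuousOn hmem
      refine ⟨p + s • e3, ?_, ?_⟩
      · show 0 ≤ (p + s • e3) 3
        simp only [PiLp.add_apply, PiLp.smul_apply, smul_eq_mul, e3_three, hp3]
        simpa using hs.1
      · have h1 : pr3 (Gv θ (p + s • e3)) = pr3 y := by
          rw [pr3_Gv, pr3_vert, hp, pr3_vert]
        have h2 := eq_add_of_pr3 h1
        have h3 : Gv θ (p + s • e3) 3 = y 3 := by
          rw [Gv_three, h.eq]
          simp only [PiLp.add_apply, PiLp.smul_apply, smul_eq_mul, e3_three, hp3]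
          simpa using hsy
        rw [h3, sub_self, zero_smul, add_zero] at h2
        exact h2.symm
  smooth := fun x _ => (Gv_smooth h.smooth).contDiffAt
  imm := fun x hx => h.imm (by
    have hb := h.pos
    positivity)
  fix := fun x hx => by
    unfold Gv
    rw [hx]
    simp
  vert := fun x _ => pr3_Gv θ x

end Pool.Agent.Q196.HS
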