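import Pool.Agent.Q196.HS.Defs
import Pool.Agent.Q196.SR.Sard

/-!
Slice discs in the half-space and functions on three-space.
-/

set_option autoImplicit false

namespace Pool.Agent.Q196.HS

open scoped ContDiff RealInnerProductSpace ENNReal Topology Pointwise
open MeasureTheory Set Metric Filter Pool.Agent.Y503.RB Pool.Agent.Q196.SR

theorem hd_at {φ : ℂ → E4} (h : HDisc φ) {z : ℂ} (hz : z ∈ closedBall (0 : ℂ) 1) :
    ContDiffAt ℝ ∞ φ z := by
  obtain ⟨W, hW, hsub, hs⟩ := h.smooth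
  exact hs.contDiffAt (hW.mem_nhds (hsub hz))

theorem ht_at {φ : ℂ → E4} {z : ℂ} (h : ContDiffAt ℝ ∞ φ z) :
    ContDiffAt ℝ ∞ (fun w => φ w 3) z := three_smooth.contDiffAt.comp z h

theorem closeD {φ : ℂ → E4} {f : ℂ → ℝ} {m : ℕ} (h : HDisc φ)
    (hf : ∀ z ∈ closedBall (0 : ℂ) 1, ContDiffAt ℝ ∞ f z)
    (hm : ∀ z ∈ ball (0 : ℂ) 1, fderiv ℝ f z = 0 → ∀ u : ℂ,
      (∀ v : ℂ, fderiv ℝ (fderiv ℝ f) z u v = 0) → u = 0)
    (hbd : ∀ z ∈ sphere (0 : ℂ) 1, fderiv ℝ f z ≠ 0)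
    (hmax : {z : ℂ | z ∈ ball (0 : ℂ) 1 ∧ IsLocalMax f z}.encard ≤ m) :
    ∃ N : ℕ, ∀ (t : ℝ) (a : E4), (N : ℝ) + 1 ≤ t → ‖a‖ ≤ 1 / ((N : ℝ) + 1) →
      {z : ℂ | z ∈ ball (0 : ℂ) 1 ∧ IsLocalMin (PR (fun w => φ w 3) φ f t a) z}.encard ≤ m := by
  by_contra hcon
  push Not at hcon
  choose t a ht ha hc using hcon
  choose x hxi hx using fun n => exists_inj (hc n)
  have hK : IsCompact (Set.pi univ (fun _ : Fin (m + 1) => closedBall (0 : ℂ) 1)) :=
    isCompact_univ_pi fun _ => isCompact_closedBall 0 1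
  obtain ⟨y, hy, θ, hθ, hlim⟩ := hK.tendsto_subseq (x := x)
    (fun n i _ => ball_subset_closedBall (hx n i).1)
  have hlim' : ∀ i, Tendsto (fun n => x (θ n) i) atTop (𝓝 (y i)) := fun i =>
    (tendsto_pi_nhds.mp hlim) i
  have hyc : ∀ i, y i ∈ closedBall (0 : ℂ) 1 := fun i => hy i (mem_univ i)
  have htt : Tendsto (fun n => t (θ n)) atTop atTop := by
    have h1 : Tendsto t atTop atTop := by
      refine tendsto_atTop_mono (f := fun n : ℕ => (n : ℝ)) (fun n => ?_)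
        tendsto_natCast_atTop_atTop
      linarith [ht n]
    exact h1.comp hθ.tendsto_atTop
  have haa : Tendsto (fun n => a (θ n)) atTop (𝓝 0) := by
    have h1 : Tendsto a atTop (𝓝 0) := by
      rw [tendsto_zero_iff_norm_tendsto_zero]
      exact squeeze_zero (fun n => norm_nonneg _) ha tendsto_one_div_add_atTop_nhds_zero_nat
    exact h1.comp hθ.tendsto_atTop
  have hE : ∀ i n, G1 (fun w => φ w 3) φ f (t (θ n)) (a (θ n)) (x (θ n) i) ∧
      G2 (fun w => φ w 3) φ f (t (θ n)) (a (θ n)) (x (θ n) i) := by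
    intro i n
    obtain ⟨h1, h2⟩ := hx (θ n) i
    have h3 := hd_at h (ball_subset_closedBall h1)
    exact PR_min (ht_at h3) h3 (hf _ (ball_subset_closedBall h1)) (h.inside _ h1) h2
  have hyb : ∀ i, y i ∈ ball (0 : ℂ) 1 := by
    intro i
    rcases eq_or_lt_of_le (mem_closedBall.mp (hyc i)) with h1 | h1
    · exfalso
      exact no_bdryR (ht_at (hd_at h (hyc i))) (hd_at h (hyc i)) (hf _ (hyc i)) (h.bdry _ h1)
        (h.trans _ h1).ne (hbd _ h1) (hlim' i) haa (fun n => (hE i n).1) (fun n => (hE i n).2)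
    · exact h1
  have hyl : ∀ i, fderiv ℝ f (y i) = 0 ∧ ∀ u : ℂ, fderiv ℝ (fderiv ℝ f) (y i) u u ≤ 0 := fun i =>
    inner_limR (ht_at (hd_at h (hyc i))) (hd_at h (hyc i)) (hf _ (hyc i)) (h.inside _ (hyb i))
      (hlim' i) haa htt (fun n => (hE i n).1) (fun n => (hE i n).2)
  have hymax : ∀ i, IsLocalMax f (y i) := fun i =>
    localMax_test (hf _ (hyc i)) (hyl i).1 fun u hu =>
      negdef (hf _ (hyc i)) (hyl i).2 (hm _ (hyb i) (hyl i).1) hu
  have hyi : Function.Injective y := by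
    intro i j hij
    by_contra hne
    refine no_mergeR (ht_at (hd_at h (hyc i))) (hd_at h (hyc i)) (hf _ (hyc i))
      (h.inside _ (hyb i)) (hm _ (hyb i) (hyl i).1) (hlim' i) (by rw [hij]; exact hlim' j) haa htt
      (fun n => (hE i n).1) (fun n => (hE j n).1) (fun n hn => hne (hxi (θ n) hn))
  have h1 : ((m + 1 : ℕ) : ℕ∞) ≤ {z : ℂ | z ∈ ball (0 : ℂ) 1 ∧ IsLocalMax f z}.encard := by
    have h2 : ((Finset.univ.map ⟨y, hyi⟩ : Finset ℂ) : Set ℂ) ⊆
        {z : ℂ | z ∈ ball (0 : ℂ) 1 ∧ IsLocalMax f z} := by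
      intro z hz
      simp only [Finset.coe_map, Function.Embedding.coeFn_mk, Finset.coe_univ, image_univ,
        mem_range] at hz
      obtain ⟨i, rfl⟩ := hz
      exact ⟨hyb i, hymax i⟩
    have h3 := Set.encard_le_encard h2
    rw [Set.encard_coe_eq_coe_finsetCard] at h3
    simpa using h3
  have h2 := h1.trans hmax
  have h3 : m + 1 ≤ m := by exact_mod_cast h2
  omega

/-- For almost all `a` all critical points are nondegenerate. -/
theorem ae_nondegH {h : E4 → ℝ} {t : ℝ} (ht : 0 < t) {φ : ℂ → E4} {U : Set ℂ} (hU : IsOpen U)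
    (hs : ContDiffOn ℝ ∞ φ U) (hi : ∀ z ∈ U, Function.Injective (fderiv ℝ φ z))
    (hpos : ∀ z ∈ U, 0 < φ z 3) {ρ : ℝ} (hρ : 0 < ρ) (hb : ∀ z ∈ U, ‖φ z‖ < ρ)
    (hh : ∀ z ∈ U, ContDiffAt ℝ ∞ h (φ z)) :
    ∃ B : Set E4, volume B = 0 ∧ ∀ a ∉ B, ∀ z ∈ U,
      fderiv ℝ (PR (fun w => φ w 3) φ (fun w => h (φ w)) t a) z = 0 → ∀ u : ℂ,
        (∀ v : ℂ, fderiv ℝ (fderiv ℝ (PR (fun w => φ w 3) φ (fun w => h (φ w)) t a)) z u v = 0) →
          u = 0 := by
  set ψ : ℂ → E4 := fun w => ρ⁻¹ • φ w with hψ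
  have hψρ : ∀ z, ρ • ψ z = φ z := fun z => by
    rw [hψ]
    simp only
    rw [smul_smul, mul_inv_cancel₀ hρ.ne', one_smul]
  have hd : ∀ z ∈ U, DifferentiableAt ℝ φ z := fun z hz =>
    (hs.contDiffAt (hU.mem_nhds hz)).differentiableAt (by simp)
  have hP : Patch ψ U := by
    refine ⟨hU, ?_, ?_, ?_⟩
    · exact hs.const_smul ρ⁻¹
    · intro z hz
      have h1 : fderiv ℝ ψ z = ρ⁻¹ • fderiv ℝ φ z := fderiv_fun_const_smul (hd z hz) _
      rw [h1]
      intro a b hab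
      have h2 : ρ⁻¹ • fderiv ℝ φ z a = ρ⁻¹ • fderiv ℝ φ z b := hab
      exact hi z hz (smul_right_injective E4 (inv_pos.mpr hρ).ne' h2)
    · intro z hz
      show ‖ρ⁻¹ • φ z‖ < 1
      rw [norm_smul, Real.norm_eq_abs, abs_of_pos (inv_pos.mpr hρ), inv_mul_lt_iff₀ hρ, mul_one]
      exact hb z hz
  have hrp : ∀ z ∈ U, 0 < rh ψ z := by
    intro z hz
    have := hP.inside z hz
    unfold rh
    nlinarith [norm_nonneg (ψ z)]
  set h' : E4 → ℝ := fun x => h (ρ • x) - t⁻¹ * Real.log ((ρ • x) 3 / (1 - ‖x‖ ^ 2)) with hh'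
  have hsm : ∀ z ∈ U, ContDiffAt ℝ ∞ h' (ψ z) := by
    intro z hz
    have h1 : ContDiffAt ℝ ∞ (fun x : E4 => ρ • x) (ψ z) := (contDiff_const_smul ρ).contDiffAt
    have h2 : ContDiffAt ℝ ∞ (fun x : E4 => h (ρ • x)) (ψ z) := by
      refine ContDiffAt.comp (ψ z) ?_ h1
      rw [hψρ]
      exact hh z hz
    have h3 : ContDiffAt ℝ ∞ (fun x : E4 => (ρ • x) 3 / (1 - ‖x‖ ^ 2)) (ψ z) := by
      refine (three_smooth.contDiffAt.comp (ψ z) h1).div
        (contDiffAt_const.sub (contDiffAt_id.norm_sq ℝ)) ?_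
      exact (hrp z hz).ne'
    refine h2.sub (contDiffAt_const.mul (h3.log ?_))
    have h4 : 0 < (ρ • ψ z) 3 / (1 - ‖ψ z‖ ^ 2) := by
      refine div_pos ?_ (hrp z hz)
      rw [hψρ]
      exact hpos z hz
    exact h4.ne'
  obtain ⟨B, hB0, hB⟩ := ae_nondeg ht hP hsm
  have hid : ∀ (a : E4), ∀ z ∈ U, PP ψ (fun w => h' (ψ w)) t (ρ • a) z =
      PR (fun w => φ w 3) φ (fun w => h (φ w)) t a z := by
    intro a z hz
    have h1 : 0 < (ρ • ψ z) 3 / (1 - ‖ψ z‖ ^ 2) := by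
      refine div_pos ?_ (hrp z hz)
      rw [hψρ]
      exact hpos z hz
    unfold PP PR
    have h2 : -(t * (h' (ψ z) + ⟪ρ • a, ψ z⟫)) = Real.log ((ρ • ψ z) 3 / (1 - ‖ψ z‖ ^ 2)) +
        -(t * (h (φ z) + ⟪a, φ z⟫)) := by
      have h3 : (⟪ρ • a, ψ z⟫ : ℝ) = ⟪a, φ z⟫ := by
        rw [real_inner_smul_left, ← real_inner_smul_right, hψρ]
      simp only [hh', h3, hψρ]
      field_simp
      ring
    rw [h2, Real.exp_add, Real.exp_log h1, hψρ]
    have h4 : rh ψ z = 1 - ‖ψ z‖ ^ 2 := rfl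
    rw [h4]
    have h5 : (1 - ‖ψ z‖ ^ 2) ≠ 0 := (hrp z hz).ne'
    field_simp
  refine ⟨(fun a : E4 => ρ • a) ⁻¹' B, ?_, ?_⟩
  · have h1 : (fun a : E4 => ρ • a) ⁻¹' B = ρ⁻¹ • B := by
      rw [← preimage_smul₀ hρ.ne']
    rw [h1, Measure.addHaar_smul, hB0, mul_zero]
  · intro a ha z hz hc u hu
    have hev : PP ψ (fun w => h' (ψ w)) t (ρ • a) =ᶠ[𝓝 z]
        PR (fun w => φ w 3) φ (fun w => h (φ w)) t a := by
      filter_upwards [hU.mem_nhds hz] with w hw using hid a w hw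
    refine hB (ρ • a) ha z hz (hev.fderiv_eq.trans hc) u fun v => ?_
    rw [hev.fderiv.fderiv_eq]
    exact hu v

/-- A good small parameter. -/
theorem exists_param_neg {B : Set E4} (hB : volume B = 0) {r : ℝ} (hr : 0 < r) :
    ∃ a : E4, ‖a‖ < r ∧ a 3 < 0 ∧ a ∉ B := by
  by_contra hcon
  push Not at hcon
  have hO : IsOpen (ball (0 : E4) r ∩ {a : E4 | a 3 < 0}) :=
    isOpen_ball.inter (isOpen_lt three_smooth.continuous continuous_const)
  have hne : (ball (0 : E4) r ∩ {a : E4 | a 3 < 0}).Nonempty := by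
    refine ⟨(-(r / 2)) • e3, ?_, ?_⟩
    · rw [mem_ball_zero_iff, norm_smul, Real.norm_eq_abs, abs_neg, abs_of_pos (by positivity)]
      have : ‖e3‖ = 1 := by simp [e3]
      rw [this]
      linarith
    · show ((-(r / 2)) • e3) 3 < 0
      simp only [PiLp.smul_apply, smul_eq_mul, e3_three]
      linarith
  have h1 : volume (ball (0 : E4) r ∩ {a : E4 | a 3 < 0}) ≤ volume B :=
    measure_mono fun a ha => hcon a (by simpa using ha.1) ha.2
  rw [hB] at h1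
  exact absurd (hO.measure_pos volume hne) (not_lt.mpr h1)

/-- Transfer of slice discs. -/
theorem HDisc.comp {φ : ℂ → E4} (h : HDisc φ) {θ : E4 → ℝ} {b : ℝ} (hθ : Vert θ b) :
    HDisc (fun w => Gv θ (φ w)) := by
  have hb := hθ.pos
  have hge : ∀ z ∈ closedBall (0 : ℂ) 1, 0 ≤ φ z 3 := by
    intro z hz
    rcases eq_or_lt_of_le (mem_closedBall.mp hz) with h1 | h1
    · exact (h.bdry z h1).ge
    · exact (h.inside z h1).le
  have hG := hθ.half
  refine ⟨?_, ?_, ?_, ?_, ?_, ?_⟩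
  · obtain ⟨W, hW, hsub, hs⟩ := h.smooth
    exact ⟨W, hW, hsub, (Gv_smooth hθ.smooth).comp_contDiffOn hs⟩
  · exact hG.bij.injOn.comp h.inj hge
  · intro z hz
    have h1 : fderiv ℝ (fun w => Gv θ (φ w)) z = (fderiv ℝ (Gv θ) (φ z)).comp (fderiv ℝ φ z) :=
      fderiv_comp z ((Gv_smooth hθ.smooth).differentiable (by simp) _)
        ((hd_at h hz).differentiableAt (by simp))
    rw [h1]
    exact (hG.imm _ (hge z hz)).comp (h.imm z hz)
  · intro z hz
    rw [Gv_three]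
    exact mul_pos (h.inside z hz) (Real.exp_pos _)
  · intro z hz
    rw [Gv_three, h.bdry z hz, zero_mul]
  · intro z hz
    have hz' := sphere_subset_closedBall hz
    have h1 : (fun w => Gv θ (φ w) 3) = fun w => φ w 3 * Real.exp (-θ (φ w)) :=
      funext fun w => Gv_three θ _
    have h2 : HasFDerivAt (fun w => φ w 3) (fderiv ℝ (fun w => φ w 3) z) z :=
      ((ht_at (hd_at h hz')).differentiableAt (by simp)).hasFDerivAt
    have h3 : DifferentiableAt ℝ (fun w => Real.exp (-θ (φ w))) z := by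
      have := (hθ.smooth.contDiffAt.comp z (hd_at h hz')).neg.exp
      exact this.differentiableAt (by simp)
    have h4 : HasFDerivAt (fun w => φ w 3 * Real.exp (-θ (φ w))) _ z := h2.mul h3.hasFDerivAt
    rw [h1, h4.fderiv]
    simp only [ContinuousLinearMap.add_apply, ContinuousLinearMap.smul_apply, smul_eq_mul]
    rw [h.bdry z hz, zero_mul, zero_add]
    exact mul_neg_of_pos_of_neg (Real.exp_pos _) (h.trans z hz)

/-- The vertical maps of the theorem. -/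
theorem vert_lin {H : E3 → ℝ} (hH : ContDiff ℝ ∞ H) {t : ℝ} (ht : 0 < t) {a : E4} (ha : a 3 < 0) :
    Vert (fun x => t * (H (pr3 x) + ⟪a, x⟫)) (-(t * a 3)) where
  smooth := contDiff_const.mul ((hH.comp pr3_smooth).add (contDiff_const.inner ℝ contDiff_id))
  pos := by
    have := mul_neg_of_pos_of_neg ht ha
    linarith
  eq := fun x s => by
    have h1 : (⟪a, e3⟫ : ℝ) = a 3 := by
      unfold e3
      rw [EuclideanSpace.inner_single_right]
      simp
    rw [pr3_vert, inner_add_right, inner_smul_right, h1]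
    ring

/-- Slice discs in the half-space and functions on three-space. -/
theorem proj_disc {φ : ℂ → E4} (hφ : HDisc φ) {H : E3 → ℝ} (hH : ContDiff ℝ ∞ H) {m : ℕ}
    (hmorse : ∀ z ∈ ball (0 : ℂ) 1, fderiv ℝ (fun w => H (pr3 (φ w))) z = 0 → ∀ u : ℂ,
      (∀ v : ℂ, fderiv ℝ (fderiv ℝ (fun w => H (pr3 (φ w)))) z u v = 0) → u = 0)
    (hbd : ∀ z ∈ sphere (0 : ℂ) 1, fderiv ℝ (fun w => H (pr3 (φ w))) z ≠ 0)
    (hmax : {z : ℂ | z ∈ ball (0 : ℂ) 1 ∧ IsLocalMax (fun w => H (pr3 (φ w))) z}.encard ≤ m) :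
    ∃ G : E4 → E4, HalfDiffeo G ∧ HDisc (fun w => G (φ w)) ∧ MorseHDisc (fun w => G (φ w)) m := by
  set h : E4 → ℝ := fun x => H (pr3 x) with hh
  have hhs : ContDiff ℝ ∞ h := hH.comp pr3_smooth
  have hf : ∀ z ∈ closedBall (0 : ℂ) 1, ContDiffAt ℝ ∞ (fun w => h (φ w)) z := fun z hz =>
    hhs.contDiffAt.comp z (hd_at hφ hz)
  obtain ⟨N, hN⟩ := closeD hφ hf hmorse hbd hmax
  set t : ℝ := (N : ℝ) + 1 with ht_def
  have ht : 0 < t := by positivity
  have hcomp : IsCompact (φ '' closedBall (0 : ℂ) 1) :=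
    (isCompact_closedBall 0 1).image_of_continuousOn fun z hz =>
      (hd_at hφ hz).continuousAt.continuousWithinAt
  obtain ⟨ρ, hρ0, hρ⟩ := hcomp.isBounded.exists_pos_norm_lt
  have hin : ∀ z ∈ ball (0 : ℂ) 1, ContDiffAt ℝ ∞ φ z := fun z hz =>
    hd_at hφ (ball_subset_closedBall hz)
  obtain ⟨B, hB0, hB⟩ := ae_nondegH (h := h) ht isOpen_ball
    (fun z hz => (hin z hz).contDiffWithinAt)
    (fun z hz => hφ.imm z (ball_subset_closedBall hz)) hφ.inside hρ0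
    (fun z hz => hρ _ ⟨z, ball_subset_closedBall hz, rfl⟩) (fun z _ => hhs.contDiffAt)
  obtain ⟨a, han, ha3, haB⟩ := exists_param_neg hB0 (by positivity : 0 < 1 / t)
  have hV := vert_lin hH ht ha3
  have hfun : (fun w => Gv (fun x => t * (H (pr3 x) + ⟪a, x⟫)) (φ w) 3) =
      PR (fun w => φ w 3) φ (fun w => h (φ w)) t a := funext fun w => Gv_three _ _
  refine ⟨Gv (fun x => t * (H (pr3 x) + ⟪a, x⟫)), hV.half, hφ.comp hV, ?_, ?_⟩
  · rw [hfun]
    exact fun z hz hc u hu => hB a haB z hz hc u hu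
  · rw [hfun]
    exact hN t a le_rfl han.le

end Pool.Agent.Q196.HS
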