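import Pool.Agent.Q196.HS.Curv
import Pool.Agent.Q196.HS.DiscP
import Pool.Agent.Q196.RG.DirS

/-!
Slice discs in the half-space whose projection to three-space has small total positive curvature.
-/

set_option autoImplicit false

namespace Pool.Agent.Q196.HS

open scoped ContDiff RealInnerProductSpace ENNReal Topology
open MeasureTheory Set Metric Filter Pool.Agent.Y503.RB Pool.Agent.Q196.SR Pool.Agent.Q196.RG

/-- Vectors normal to a surface piece at the points of a null set. -/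
theorem nrm_null {ψ : ℂ → E4} {U : Set ℂ} (hP : Patch ψ U) {S : Set ℂ} (hS : volume S = 0) :
    volume {y : E4 | ∃ z ∈ U, z ∈ S ∧ ∀ u : ℂ, (⟪y, fderiv ℝ ψ z u⟫ : ℝ) = 0} = 0 := by
  obtain ⟨N₁, N₂, U', h1, h2⟩ := Pool.Agent.Y232.RB.Ref.cover Pool.Agent.Y297.RB.lf hP
  set G : ℕ → E4 → E4 := fun j x => x 2 • N₁ j (zc x) + x 3 • N₂ j (zc x) with hG
  have hsub : {y : E4 | ∃ z ∈ U, z ∈ S ∧ ∀ u : ℂ, (⟪y, fderiv ℝ ψ z u⟫ : ℝ) = 0} ⊆
      ⋃ j, G j '' {x | zc x ∈ U' j ∧ zc x ∈ S} := by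
    rintro y ⟨z, hz, hz1, hy⟩
    obtain ⟨j, hj⟩ := mem_iUnion.mp (h2 hz)
    obtain ⟨α, β, hαβ⟩ := span_of_orth
      (Pool.Agent.Y232.RB.Ref.patch_mono hP (h1 j).2.2 (h1 j).1) (h1 j).2.1 hj (v := y) hy
    refine mem_iUnion.mpr ⟨j, mk4 z α β, ⟨by simpa using hj, ?_⟩, ?_⟩
    · rw [mk4_zc]
      exact hz1
    · simp only [hG, mk4_zc, mk4_two, mk4_three]
      exact hαβ.symm
  refine measure_mono_null hsub (measure_iUnion_null fun j => ?_)
  refine addHaar_image_eq_zero_of_differentiableOn_of_addHaar_eq_zero volume ?_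
    (measure_mono_null (fun x hx => hx.2) (cylS_null hS))
  intro x hx
  have hUn : U' j ∈ 𝓝 (zc x) := (h1 j).1.mem_nhds hx.1
  have hN1 : DifferentiableAt ℝ (N₁ j) (zc x) :=
    ((h1 j).2.1.smooth₁.contDiffAt hUn).differentiableAt (by simp)
  have hN2 : DifferentiableAt ℝ (N₂ j) (zc x) :=
    ((h1 j).2.1.smooth₂.contDiffAt hUn).differentiableAt (by simp)
  have hzc : DifferentiableAt ℝ (zc : E4 → ℂ) x := by
    have : (zc : E4 → ℂ) = fun x => Pool.Agent.Y977.RB.zcL x :=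
      funext fun x => (Pool.Agent.Y977.RB.zcL_apply x).symm
    rw [this]
    exact Pool.Agent.Y977.RB.zcL.differentiableAt
  have h3 : DifferentiableAt ℝ (fun x : E4 => N₁ j (zc x)) x :=
    DifferentiableAt.comp (f := zc) (g := N₁ j) x hN1 hzc
  have h4 : DifferentiableAt ℝ (fun x : E4 => N₂ j (zc x)) x :=
    DifferentiableAt.comp (f := zc) (g := N₂ j) x hN2 hzc
  have hp : ∀ i : Fin 4, DifferentiableAt ℝ (fun y : E4 => y i) x := fun i =>
    (EuclideanSpace.proj (𝕜 := ℝ) i : E4 →L[ℝ] ℝ).differentiableAt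
  exact (((hp 2).smul h3).add ((hp 3).smul h4)).differentiableWithinAt

/-- Vectors orthogonal to a nonzero vector. -/
theorem hyp_null {w : E4} (hw : w ≠ 0) : volume {y : E4 | (⟪y, w⟫ : ℝ) = 0} = 0 := by
  have h1 : {y : E4 | (⟪y, w⟫ : ℝ) = 0} ⊆ ((ℝ ∙ w)ᗮ : Submodule ℝ E4) := by
    intro y hy
    rw [SetLike.mem_coe, Submodule.mem_orthogonal_singleton_iff_inner_left]
    exact hy
  refine measure_mono_null h1 (Measure.addHaar_submodule volume _ fun h => hw ?_)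
  have h2 : w ∈ ((ℝ ∙ w)ᗮ : Submodule ℝ E4) := by
    rw [h]
    trivial
  rw [Submodule.mem_orthogonal_singleton_iff_inner_left] at h2
  exact inner_self_eq_zero.mp h2

/-- The horizontal part of an immersion is nowhere constant to first order. -/
theorem flat_ne {L : ℂ →L[ℝ] E4} (hL : Function.Injective L) :
    ∃ u : ℂ, flatL (L u) ≠ 0 := by
  by_contra hcon
  push Not at hcon
  have h1 : ∀ u : ℂ, L u = L u 3 • e3 := fun u => by
    have := hcon u
    rw [flatL_apply, sub_eq_zero] at this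
    exact this
  have h2 : L ((L Complex.I 3) • (1 : ℂ) - (L 1 3) • Complex.I) = 0 := by
    rw [map_sub, map_smul, map_smul, h1 1, h1 Complex.I]
    simp only [PiLp.smul_apply, smul_eq_mul, e3_three, mul_one]
    rw [smul_smul, smul_smul, mul_comm, sub_self]
  have h3 : (L Complex.I 3) • (1 : ℂ) - (L 1 3) • Complex.I = 0 := hL (by rw [h2, map_zero])
  have h4 := congrArg Complex.im h3
  have h5 : L 1 3 = 0 := by
    simpa using h4
  have h6 : L 1 = 0 := by
    rw [h1 1, h5, zero_smul]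
  exact one_ne_zero (hL (h6.trans (map_zero L).symm))

theorem inj_iff {φ : ℂ → E4} {z : ℂ} (hφ : DifferentiableAt ℝ φ z) {c : ℝ} (hc : 0 < c) :
    Function.Injective (fderiv ℝ (fun w => c • flatL (φ w)) z) ↔
      Function.Injective (fderiv ℝ (fun w => pr3 (φ w)) z) := by
  have h0 : ∀ x : E4, c • flatL x = 0 ↔ pr3 x = 0 := by
    intro x
    constructor
    · intro h
      rw [← pr3_flatL, (smul_eq_zero.mp h).resolve_left hc.ne']
      rfl
    · intro h
      have h1 : (⟪flatL x, flatL x⟫ : ℝ) = 0 := by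
        rw [inner_flat, h, inner_zero_right]
      rw [inner_self_eq_zero.mp h1, smul_zero]
  rw [injective_iff_map_eq_zero, injective_iff_map_eq_zero]
  refine forall_congr' fun u => ?_
  rw [flat_fderiv hφ, pr3_fderiv hφ, h0]

/-- A linear function on three-space with few local maxima on the projection of the disc. -/
theorem good_lin {φ : ℂ → E4} (hφ : HDisc φ) (m : ℕ)
    (hc : {z : ℂ | z ∈ closedBall (0 : ℂ) 1 ∧
      ¬ Function.Injective (fderiv ℝ (fun w => pr3 (φ w)) z)}.Countable)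
    (hT : ∫⁻ z in ball (0 : ℂ) 1, posCurvAt (fun w => pr3 (φ w)) z <
      ENNReal.ofReal (4 * Real.pi * (m + 1))) :
    ∃ (c : ℝ) (v : E3), (∀ z ∈ ball (0 : ℂ) 1,
        fderiv ℝ (fun w => c * ⟪v, pr3 (φ w)⟫) z = 0 → ∀ u : ℂ,
        (∀ x : ℂ, fderiv ℝ (fderiv ℝ (fun w => c * ⟪v, pr3 (φ w)⟫)) z u x = 0) → u = 0) ∧
      (∀ z ∈ sphere (0 : ℂ) 1, fderiv ℝ (fun w => c * ⟪v, pr3 (φ w)⟫) z ≠ 0) ∧
      {z : ℂ | z ∈ ball (0 : ℂ) 1 ∧ IsLocalMax (fun w => c * ⟪v, pr3 (φ w)⟫) z}.encard ≤ m := by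
  classical
  obtain ⟨W, hW, hsub, hs⟩ := hφ.smooth
  have hcomp : IsCompact ((fun z => flatL (φ z)) '' closedBall (0 : ℂ) 1) :=
    (isCompact_closedBall 0 1).image_of_continuousOn
      (flatL.continuous.comp_continuousOn (hs.continuousOn.mono hsub))
  obtain ⟨ρ, hρ0, hρ⟩ := hcomp.isBounded.exists_pos_norm_lt
  set c : ℝ := ρ⁻¹ with hcd
  have hc0 : 0 < c := inv_pos.mpr hρ0
  set ψ : ℂ → E4 := fun w => c • flatL (φ w) with hψ
  have hψs : ContDiffOn ℝ ∞ ψ W := (flatL.contDiff.comp_contDiffOn hs).const_smul c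
  have hd : ∀ z ∈ W, DifferentiableAt ℝ φ z := fun z hz =>
    (hs.contDiffAt (hW.mem_nhds hz)).differentiableAt (by simp)
  have hψn : ∀ z ∈ closedBall (0 : ℂ) 1, ‖ψ z‖ < 1 := by
    intro z hz
    show ‖ρ⁻¹ • flatL (φ z)‖ < 1
    rw [norm_smul, Real.norm_eq_abs, abs_of_pos hc0, inv_mul_lt_iff₀ hρ0, mul_one]
    exact hρ _ ⟨z, hz, rfl⟩
  -- the open set where the projection is an immersion
  have hcf : ContinuousOn (fderiv ℝ ψ) W := hψs.continuousOn_fderiv_of_isOpen hW (by simp)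
  have hO1 := hcf.isOpen_inter_preimage hW
    (ContinuousLinearMap.isOpen_injective (𝕜 := ℝ) (E := ℂ) (F := E4))
  have hO2 := hψs.continuousOn.norm.isOpen_inter_preimage hW isOpen_Iio (t := Iio 1)
  set U : Set ℂ := (W ∩ fderiv ℝ ψ ⁻¹' {f | Function.Injective f}) ∩
    (W ∩ (fun z => ‖ψ z‖) ⁻¹' Iio 1) with hU
  have hPU : Patch ψ U :=
    ⟨hO1.inter hO2, hψs.mono fun z hz => hz.1.1, fun z hz => hz.1.2, fun z hz => hz.2.2⟩
  have hPB : Patch ψ (U ∩ ball 0 1) :=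
    ⟨hPU.isOpen.inter isOpen_ball, hPU.smooth.mono inter_subset_left, fun z hz => hPU.imm z hz.1,
      fun z hz => hPU.inside z hz.1⟩
  set C : Set ℂ := {z : ℂ | z ∈ closedBall (0 : ℂ) 1 ∧
      ¬ Function.Injective (fderiv ℝ (fun w => pr3 (φ w)) z)} with hC
  have hUC : ∀ z ∈ closedBall (0 : ℂ) 1, z ∉ C → z ∈ U := by
    intro z hz hzC
    have h1 : Function.Injective (fderiv ℝ (fun w => pr3 (φ w)) z) := by
      by_contra h
      exact hzC ⟨hz, h⟩
    exact ⟨⟨hsub hz, (inj_iff (hd z (hsub hz)) hc0).mpr h1⟩, hsub hz, hψn z hz⟩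
  -- the exceptional set of directions
  set Z : Set E4 := {y : E4 | ∃ z ∈ U, z ∈ sphere (0 : ℂ) 1 ∧
    ∀ u : ℂ, (⟪y, fderiv ℝ ψ z u⟫ : ℝ) = 0} ∪
    ⋃ z ∈ C, {y : E4 | ∀ u : ℂ, (⟪y, fderiv ℝ ψ z u⟫ : ℝ) = 0} with hZd
  have hZ : volume Z = 0 := by
    refine measure_union_null ?_ ?_
    · exact nrm_null hPU (Measure.addHaar_sphere volume (0 : ℂ) 1)
    · rw [measure_biUnion_null_iff hc]
      intro z hz
      obtain ⟨u, hu⟩ := flat_ne (hφ.imm z hz.1)
      refine measure_mono_null ?_ (hyp_null (w := fderiv ℝ ψ z u) ?_)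
      · intro y hy
        exact hy u
      · rw [hψ, flat_fderiv (hd z (hsub hz.1))]
        exact smul_ne_zero hc0.ne' hu
  have hT' : ∑' _ : Unit, ∫⁻ z in U ∩ ball 0 1, ncurvAt ψ z <
      ENNReal.ofReal (2 * Real.pi ^ 2 * (m + 1)) := by
    have h1 : ∑' _ : Unit, ∫⁻ z in U ∩ ball 0 1, ncurvAt ψ z =
        ∫⁻ z in U ∩ ball 0 1, ncurvAt ψ z := by simp
    rw [h1]
    calc ∫⁻ z in U ∩ ball 0 1, ncurvAt ψ z
        ≤ ∫⁻ z in U ∩ ball 0 1, ENNReal.ofReal (Real.pi / 2) *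
            posCurvAt (fun w => pr3 (φ w)) z := by
          refine setLIntegral_mono' hPB.isOpen.measurableSet fun z hz => ?_
          have hzW : z ∈ W := hz.1.1.1
          exact ncurv_flat (hs.contDiffAt (hW.mem_nhds hzW)) hc0
            ((inj_iff (hd z hzW) hc0).mp hz.1.1.2)
      _ = ENNReal.ofReal (Real.pi / 2) * ∫⁻ z in U ∩ ball 0 1,
            posCurvAt (fun w => pr3 (φ w)) z := lintegral_const_mul' _ _ ENNReal.ofReal_ne_top
      _ ≤ ENNReal.ofReal (Real.pi / 2) * ∫⁻ z in ball (0 : ℂ) 1,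
            posCurvAt (fun w => pr3 (φ w)) z :=
          mul_le_mul_right (lintegral_mono_set inter_subset_right) _
      _ < ENNReal.ofReal (Real.pi / 2) * ENNReal.ofReal (4 * Real.pi * (m + 1)) := by
          refine ENNReal.mul_lt_mul_right ?_ ENNReal.ofReal_ne_top hT
          simp [Real.pi_pos]
      _ = ENNReal.ofReal (2 * Real.pi ^ 2 * (m + 1)) := by
          rw [← ENNReal.ofReal_mul (by positivity)]
          congr 1
          ring
  obtain ⟨v, r, hv, hr, hrZ, hmorse, hmax⟩ := good_dirs (ι := Unit) (φ := fun _ => ψ)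
    (U := fun _ => U ∩ ball 0 1) (A := fun _ => U ∩ ball 0 1) (fun _ => hPB)
    (fun _ => hPB.isOpen.measurableSet) (fun _ => Subset.rfl) m Z hZ hT'
  have hfun : (fun w => c * (⟪pr3 v, pr3 (φ w)⟫ : ℝ)) = fun w => (⟪v, ψ w⟫ : ℝ) := by
    funext w
    rw [hψ]
    simp only
    rw [inner_smul_right, inner_flat]
  have hperp : ∀ z ∈ closedBall (0 : ℂ) 1, fderiv ℝ (fun w => (⟪v, ψ w⟫ : ℝ)) z = 0 →
      ∀ u : ℂ, (⟪r • v, fderiv ℝ ψ z u⟫ : ℝ) = 0 := by
    intro z hz h0 u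
    have h1 := inner_fderiv (φ := ψ) ((hψs.contDiffAt
      (hW.mem_nhds (hsub hz))).differentiableAt (by simp)) v u
    rw [h0] at h1
    rw [inner_smul_left, ← h1]
    simp
  have hnC : ∀ z ∈ closedBall (0 : ℂ) 1, fderiv ℝ (fun w => (⟪v, ψ w⟫ : ℝ)) z = 0 → z ∈ U := by
    intro z hz h0
    refine hUC z hz fun hzC => hrZ (Or.inr (mem_iUnion₂.mpr ⟨z, hzC, hperp z hz h0⟩))
  refine ⟨c, pr3 v, ?_, ?_, ?_⟩
  · rw [hfun]
    intro z hz h0
    exact hmorse () z ⟨hnC z (ball_subset_closedBall hz) h0, hz⟩ h0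
  · rw [hfun]
    intro z hz h0
    have hz' := sphere_subset_closedBall hz
    exact hrZ (Or.inl ⟨z, hnC z hz' h0, hz, hperp z hz' h0⟩)
  · rw [hfun]
    refine encard_le_of_finset fun s hs' => ?_
    have hcard : (s.image fun z => (((), z) : Unit × ℂ)).card = s.card :=
      Finset.card_image_of_injective _ fun a b hab => (Prod.ext_iff.mp hab).2
    rw [← hcard]
    refine hmax _ fun p hp => ?_
    obtain ⟨z, hz, rfl⟩ := Finset.mem_image.mp hp
    obtain ⟨h1, h2⟩ := hs' z hz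
    exact ⟨⟨hnC z (ball_subset_closedBall h1) h2.fderiv_eq_zero, h1⟩, h2⟩

/-- Slice discs whose projection has small total positive curvature. -/
theorem curv_disc {φ : ℂ → E4} (hφ : HDisc φ) (m : ℕ)
    (hc : {z : ℂ | z ∈ closedBall (0 : ℂ) 1 ∧
      ¬ Function.Injective (fderiv ℝ (fun w => pr3 (φ w)) z)}.Countable)
    (hT : ∫⁻ z in ball (0 : ℂ) 1, posCurvAt (fun w => pr3 (φ w)) z <
      ENNReal.ofReal (4 * Real.pi * (m + 1))) :
    ∃ G : E4 → E4, HalfDiffeo G ∧ HDisc (fun w => G (φ w)) ∧ MorseHDisc (fun w => G (φ w)) m := by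
  obtain ⟨c, v, h1, h2, h3⟩ := good_lin hφ m hc hT
  exact proj_disc hφ (H := fun q => c * ⟪v, q⟫)
    (contDiff_const.mul (contDiff_const.inner ℝ contDiff_id)) h1 h2 h3

end Pool.Agent.Q196.HS
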