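import Pool.Agent.Q196.HS.DiscP
import Pool.Agent.Q196.RG.CloseS

/-!
Compact surfaces in the half-space.
-/

set_option autoImplicit false

namespace Pool.Agent.Q196.HS

open scoped ContDiff RealInnerProductSpace ENNReal Topology
open MeasureTheory Set Metric Filter Pool.Agent.Y503.RB Pool.Agent.Q196.SR Pool.Agent.Q196.RG

/-- Piece of an embedded surface in four-space, parametrised by an open set of the plane and
transversal to the boundary hyperplane of the half-space. -/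
structure HPatch (φ : ℂ → E4) (U : Set ℂ) : Prop where
  isOpen : IsOpen U
  smooth : ContDiffOn ℝ ∞ φ U
  imm : ∀ z ∈ U, Function.Injective (fderiv ℝ φ z)
  emb : Topology.IsEmbedding (fun z : U => φ z)
  trans : ∀ z ∈ U, φ z 3 = 0 → fderiv ℝ (fun w => φ w 3) z ≠ 0

/-- Compact smooth surface with boundary, properly and transversally embedded in the closed
half-space: near each of its points it is a smooth surface, cut transversally by the boundary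
hyperplane. -/
structure HSurf (F : Set E4) : Prop where
  compact : IsCompact F
  sub : ∀ x ∈ F, 0 ≤ x 3
  loc : ∀ p ∈ F, ∃ (φ : ℂ → E4) (U : Set ℂ) (V : Set E4), HPatch φ U ∧ IsOpen V ∧ p ∈ V ∧
    F ∩ V = φ '' U ∩ {x | 0 ≤ x 3}

/-- The height restricted to `F` is a Morse function at positive heights with at most `m` local
minima there. -/
structure MorseHSurf (F : Set E4) (m : ℕ) : Prop where
  morse : ∀ p ∈ F, 0 < p 3 → ∃ (φ : ℂ → E4) (U : Set ℂ) (V : Set E4) (z : ℂ), HPatch φ U ∧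
    IsOpen V ∧ p ∈ V ∧ F ∩ V = φ '' U ∧ z ∈ U ∧ φ z = p ∧
    (fderiv ℝ (fun w => φ w 3) z = 0 → ∀ u : ℂ,
      (∀ v : ℂ, fderiv ℝ (fderiv ℝ (fun w => φ w 3)) z u v = 0) → u = 0)
  minima : {p : E4 | p ∈ F ∧ 0 < p 3 ∧ IsLocalMinOn (fun x => x 3) F p}.encard ≤ m

/-- The function `H` on three-space, restricted to the vertical projection of the surface `F`, is a
Morse function at positive heights and it has no critical points on the boundary of `F`. -/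
def MorseOnH (H : E3 → ℝ) (F : Set E4) : Prop :=
  ∀ p ∈ F, ∃ (φ : ℂ → E4) (U : Set ℂ) (V : Set E4) (z : ℂ), HPatch φ U ∧ IsOpen V ∧ p ∈ V ∧
    F ∩ V = φ '' U ∩ {x | 0 ≤ x 3} ∧ z ∈ U ∧ φ z = p ∧
    (p 3 = 0 → fderiv ℝ (fun w => H (pr3 (φ w))) z ≠ 0) ∧
    (0 < p 3 → fderiv ℝ (fun w => H (pr3 (φ w))) z = 0 → ∀ u : ℂ,
      (∀ v : ℂ, fderiv ℝ (fderiv ℝ (fun w => H (pr3 (φ w)))) z u v = 0) → u = 0)

theorem nbhdH {F V : Set E4} {φ : ℂ → E4} {U : Set ℂ} (hB : HPatch φ U) (hV : IsOpen V)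
    (hF : F ∩ V = φ '' U ∩ {x | 0 ≤ x 3}) {z : ℂ} (hz : z ∈ U) (hzV : φ z ∈ V) {O : Set ℂ}
    (hO : IsOpen O) (hzO : z ∈ O) :
    ∃ N : Set E4, IsOpen N ∧ φ z ∈ N ∧ N ⊆ V ∧ ∀ x ∈ F ∩ N, ∃ w ∈ U ∩ O, φ w = x := by
  have h1 : IsOpen {w : U | (w : ℂ) ∈ O} := hO.preimage continuous_subtype_val
  obtain ⟨N₁, hN₁, hN₂⟩ := hB.emb.isInducing.isOpen_iff.mp h1
  refine ⟨V ∩ N₁, hV.inter hN₁, ⟨hzV, ?_⟩, inter_subset_left, ?_⟩
  · have : (⟨z, hz⟩ : U) ∈ (fun z : U => φ z) ⁻¹' N₁ := by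
      rw [hN₂]
      exact hzO
    exact this
  · rintro x ⟨hxF, hxV, hxN⟩
    have hx : x ∈ φ '' U ∩ {x | 0 ≤ x 3} := by
      rw [← hF]
      exact ⟨hxF, hxV⟩
    obtain ⟨⟨w, hw, rfl⟩, -⟩ := hx
    refine ⟨w, ⟨hw, ?_⟩, rfl⟩
    have : (⟨w, hw⟩ : U) ∈ (fun z : U => φ z) ⁻¹' N₁ := hxN
    rw [hN₂] at this
    exact this

/-- Coordinates of a convergent sequence on the surface. -/
theorem chart_limH {F V : Set E4} {φ : ℂ → E4} {U : Set ℂ} (hB : HPatch φ U) (hV : IsOpen V)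
    (hF : F ∩ V = φ '' U ∩ {x | 0 ≤ x 3}) {z : ℂ} (hz : z ∈ U) (hzV : φ z ∈ V)
    {x : ℕ → E4} (hxF : ∀ n, x n ∈ F) (hx : Tendsto x atTop (𝓝 (φ z))) :
    ∃ zz : ℕ → ℂ, (∀ᶠ n in atTop, zz n ∈ U ∧ φ (zz n) = x n) ∧ Tendsto zz atTop (𝓝 z) := by
  classical
  have hex : ∀ n, ∃ w : ℂ, x n ∈ V → w ∈ U ∧ φ w = x n := by
    intro n
    by_cases h : x n ∈ V
    · have h1 : x n ∈ φ '' U ∩ {x | 0 ≤ x 3} := hF ▸ ⟨hxF n, h⟩
      obtain ⟨⟨w, hw, hwx⟩, -⟩ := h1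
      exact ⟨w, fun _ => ⟨hw, hwx⟩⟩
    · exact ⟨0, fun h' => absurd h' h⟩
  choose zz hzz using hex
  have hVn : ∀ᶠ n in atTop, x n ∈ V := hx.eventually (hV.mem_nhds hzV)
  refine ⟨zz, hVn.mono fun n hn => hzz n hn, ?_⟩
  rw [tendsto_def]
  intro O hO
  obtain ⟨O', hO', hO'o, hzO'⟩ := _root_.mem_nhds_iff.1 hO
  obtain ⟨N, hN, hzN, hNV, hNx⟩ := nbhdH hB hV hF hz hzV hO'o hzO'
  have hNn : ∀ᶠ n in atTop, x n ∈ N := hx.eventually (hN.mem_nhds hzN)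
  filter_upwards [hNn, hVn] with n h1 h2
  obtain ⟨w, ⟨hwU, hwO⟩, hwx⟩ := hNx (x n) ⟨hxF n, h1⟩
  obtain ⟨h3, h4⟩ := hzz n h2
  have h5 : (⟨zz n, h3⟩ : U) = ⟨w, hwU⟩ := hB.emb.injective (by
    show φ (zz n) = φ w
    rw [h4, hwx])
  have h6 : zz n = w := congrArg Subtype.val h5
  show zz n ∈ O
  rw [h6]
  exact hO' hwO

theorem ev_memH {F V : Set E4} {φ : ℂ → E4} {U : Set ℂ} (hB : HPatch φ U) (hV : IsOpen V)
    (hF : F ∩ V = φ '' U ∩ {x | 0 ≤ x 3}) {z : ℂ} (hz : z ∈ U) (hzV : φ z ∈ V)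
    (hz1 : 0 < φ z 3) : ∀ᶠ w in 𝓝 z, φ w ∈ F := by
  have hc : ContinuousAt φ z := hB.smooth.continuousOn.continuousAt (hB.isOpen.mem_nhds hz)
  have hc3 : ContinuousAt (fun w => φ w 3) z := three_smooth.continuous.continuousAt.comp hc
  filter_upwards [hB.isOpen.mem_nhds hz, hc.eventually (hV.mem_nhds hzV),
    hc3.eventually (lt_mem_nhds hz1)] with w h1 h2 h3
  have h4 : φ w ∈ φ '' U ∩ {x | 0 ≤ x 3} := ⟨⟨w, h1, rfl⟩, h3.le⟩
  rw [← hF] at h4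
  exact h4.1

theorem maxOn_ofH {F V : Set E4} {φ : ℂ → E4} {U : Set ℂ} (hB : HPatch φ U) (hV : IsOpen V)
    (hF : F ∩ V = φ '' U ∩ {x | 0 ≤ x 3}) {z : ℂ} (hz : z ∈ U) (hzV : φ z ∈ V) {f : E4 → ℝ}
    (h : IsLocalMax (fun w => f (φ w)) z) : IsLocalMaxOn f F (φ z) := by
  obtain ⟨O, hO, hOo, hzO⟩ := _root_.mem_nhds_iff.1 h
  obtain ⟨N, hN, hzN, hNV, hNx⟩ := nbhdH hB hV hF hz hzV hOo hzO
  have : N ∈ 𝓝[F] (φ z) := mem_nhdsWithin_of_mem_nhds (hN.mem_nhds hzN)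
  filter_upwards [this, self_mem_nhdsWithin] with x hx hxF
  obtain ⟨w, ⟨-, hwO⟩, rfl⟩ := hNx x ⟨hxF, hx⟩
  exact hO hwO

theorem closeH {F : Set E4} (hF : HSurf F) {H : E3 → ℝ} (hH : ContDiff ℝ ∞ H)
    (hm : MorseOnH H F) {m : ℕ}
    (hmax : {p : E4 | p ∈ F ∧ 0 < p 3 ∧ IsLocalMaxOn (fun x => H (pr3 x)) F p}.encard ≤ m) :
    ∃ N : ℕ, ∀ (t : ℝ) (a : E4), (N : ℝ) + 1 ≤ t → ‖a‖ ≤ 1 / ((N : ℝ) + 1) →
      {p : E4 | p ∈ F ∧ 0 < p 3 ∧
        IsLocalMinOn (fun x => x 3 * Real.exp (-(t * (H (pr3 x) + ⟪a, x⟫)))) F p}.encard ≤ m := by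
  classical
  by_contra hcon
  push Not at hcon
  choose t a ht ha hc using hcon
  choose x hxi hx using fun n => exists_injS (hc n)
  have hK : IsCompact (Set.pi univ (fun _ : Fin (m + 1) => F)) :=
    isCompact_univ_pi fun _ => hF.compact
  obtain ⟨y, hy, θ, hθ, hlim⟩ := hK.tendsto_subseq (x := x) (fun n i _ => (hx n i).1)
  have hlim' : ∀ i, Tendsto (fun n => x (θ n) i) atTop (𝓝 (y i)) := fun i =>
    (tendsto_pi_nhds.mp hlim) i
  have hyF : ∀ i, y i ∈ F := fun i => hy i (mem_univ i)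
  choose! φ U V z hB hVo hpV hFV hzU hzp hbd hnd using hm
  have hcoord : ∀ i, ∃ zz : ℕ → ℂ, (∀ᶠ n in atTop, zz n ∈ U (y i) ∧ φ (y i) (zz n) = x (θ n) i) ∧
      Tendsto zz atTop (𝓝 (z (y i))) := by
    intro i
    refine chart_limH (hB _ (hyF i)) (hVo _ (hyF i)) (hFV _ (hyF i)) (hzU _ (hyF i))
      (by rw [hzp _ (hyF i)]; exact hpV _ (hyF i)) (fun n => (hx (θ n) i).1)
      (by rw [hzp _ (hyF i)]; exact hlim' i)
  choose zz hzz hzlim using hcoord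
  have hVev : ∀ i, ∀ᶠ n in atTop, x (θ n) i ∈ V (y i) := fun i =>
    (hlim' i).eventually ((hVo _ (hyF i)).mem_nhds (hpV _ (hyF i)))
  obtain ⟨n₀, hn₀⟩ := eventually_atTop.1 (eventually_all.2 fun i => (hzz i).and (hVev i))
  have hgood : ∀ i n, zz i (n + n₀) ∈ U (y i) ∧ φ (y i) (zz i (n + n₀)) = x (θ (n + n₀)) i ∧
      x (θ (n + n₀)) i ∈ V (y i) := fun i n =>
    ⟨(hn₀ (n + n₀) (Nat.le_add_left _ _) i).1.1, (hn₀ (n + n₀) (Nat.le_add_left _ _) i).1.2,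
      (hn₀ (n + n₀) (Nat.le_add_left _ _) i).2⟩
  have hshift : Tendsto (fun n : ℕ => n + n₀) atTop atTop := tendsto_add_atTop_nat n₀
  have htt : Tendsto (fun n => t (θ (n + n₀))) atTop atTop := by
    have h1 : Tendsto t atTop atTop := by
      refine tendsto_atTop_mono (f := fun n : ℕ => (n : ℝ)) (fun n => ?_)
        tendsto_natCast_atTop_atTop
      linarith [ht n]
    exact (h1.comp hθ.tendsto_atTop).comp hshift
  have haa : Tendsto (fun n => a (θ (n + n₀))) atTop (𝓝 0) := by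
    have h1 : Tendsto a atTop (𝓝 0) := by
      rw [tendsto_zero_iff_norm_tendsto_zero]
      exact squeeze_zero (fun n => norm_nonneg _) ha tendsto_one_div_add_atTop_nhds_zero_nat
    exact (h1.comp hθ.tendsto_atTop).comp hshift
  have hzl : ∀ i, Tendsto (fun n => zz i (n + n₀)) atTop (𝓝 (z (y i))) := fun i =>
    (hzlim i).comp hshift
  have hat : ∀ p ∈ F, ∀ w ∈ U p, ContDiffAt ℝ ∞ (φ p) w := fun p hp w hw =>
    (hB p hp).smooth.contDiffAt ((hB p hp).isOpen.mem_nhds hw)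
  have hhs : ContDiff ℝ ∞ (fun x : E4 => H (pr3 x)) := hH.comp pr3_smooth
  have hf : ∀ p ∈ F, ∀ w ∈ U p, ContDiffAt ℝ ∞ (fun w => H (pr3 (φ p w))) w := fun p hp w hw =>
    ContDiffAt.comp (g := fun x : E4 => H (pr3 x)) (f := φ p) w hhs.contDiffAt (hat p hp w hw)
  have hfy : ∀ i, ContDiffAt ℝ ∞ (fun w => H (pr3 (φ (y i) w))) (z (y i)) := fun i =>
    hf _ (hyF i) _ (hzU _ (hyF i))
  have hR : ∀ p ∈ F, ∀ w ∈ U p, ContDiffAt ℝ ∞ (fun w => φ p w 3) w := fun p hp w hw =>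
    ht_at (hat p hp w hw)
  have hE : ∀ i n, G1 (fun w => φ (y i) w 3) (φ (y i)) (fun w => H (pr3 (φ (y i) w)))
      (t (θ (n + n₀))) (a (θ (n + n₀))) (zz i (n + n₀)) ∧
      G2 (fun w => φ (y i) w 3) (φ (y i)) (fun w => H (pr3 (φ (y i) w))) (t (θ (n + n₀)))
        (a (θ (n + n₀))) (zz i (n + n₀)) := by
    intro i n
    obtain ⟨h1, h2, h3⟩ := hx (θ (n + n₀)) i
    obtain ⟨g1, g2, g3⟩ := hgood i n
    have hφz := hat _ (hyF i) _ g1
    refine PR_min (hR _ (hyF i) _ g1) hφz (hf _ (hyF i) _ g1) ?_ ?_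
    · show 0 < φ (y i) (zz i (n + n₀)) 3
      rw [g2]
      exact h2
    · have hmem := ev_memH (hB _ (hyF i)) (hVo _ (hyF i)) (hFV _ (hyF i)) g1
        (by rw [g2]; exact g3) (by rw [g2]; exact h2)
      rw [← g2] at h3
      exact min_compS hφz.continuousAt hmem h3
  have hyb : ∀ i, 0 < y i 3 := by
    intro i
    rcases (hF.sub _ (hyF i)).lt_or_eq with h1 | h1
    · exact h1
    · exfalso
      have h2 := (hB _ (hyF i)).trans _ (hzU _ (hyF i)) (by rw [hzp _ (hyF i)]; exact h1.symm)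
      obtain ⟨w', hw'⟩ : ∃ w', fderiv ℝ (fun w => φ (y i) w 3) (z (y i)) w' ≠ 0 := by
        by_contra hc
        push Not at hc
        exact h2 (ContinuousLinearMap.ext hc)
      refine no_bdryR (hR _ (hyF i) _ (hzU _ (hyF i))) (hat _ (hyF i) _ (hzU _ (hyF i))) (hfy i)
        ?_ hw' (hbd _ (hyF i) h1.symm) (hzl i) haa (fun n => (hE i n).1) (fun n => (hE i n).2)
      rw [hzp _ (hyF i), ← h1]
  have hyr : ∀ i, 0 < (fun w => φ (y i) w 3) (z (y i)) := by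
    intro i
    show 0 < φ (y i) (z (y i)) 3
    rw [hzp _ (hyF i)]
    exact hyb i
  have hyl : ∀ i, fderiv ℝ (fun w => H (pr3 (φ (y i) w))) (z (y i)) = 0 ∧
      ∀ u : ℂ, fderiv ℝ (fderiv ℝ (fun w => H (pr3 (φ (y i) w)))) (z (y i)) u u ≤ 0 := fun i =>
    inner_limR (hR _ (hyF i) _ (hzU _ (hyF i))) (hat _ (hyF i) _ (hzU _ (hyF i))) (hfy i) (hyr i)
      (hzl i) haa htt (fun n => (hE i n).1) (fun n => (hE i n).2)
  have hymax : ∀ i, IsLocalMaxOn (fun x : E4 => H (pr3 x)) F (y i) := by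
    intro i
    have h1 : IsLocalMax (fun w => H (pr3 (φ (y i) w))) (z (y i)) :=
      localMax_test (hfy i) (hyl i).1 fun u hu =>
        negdef (hfy i) (hyl i).2 (hnd _ (hyF i) (hyb i) (hyl i).1) hu
    have h2 := maxOn_ofH (f := fun x : E4 => H (pr3 x)) (hB _ (hyF i)) (hVo _ (hyF i))
      (hFV _ (hyF i)) (hzU _ (hyF i)) (by rw [hzp _ (hyF i)]; exact hpV _ (hyF i)) h1
    rwa [hzp _ (hyF i)] at h2
  have hyi : Function.Injective y := by
    intro i j hij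
    by_contra hne
    refine no_mergeR (hR _ (hyF i) _ (hzU _ (hyF i))) (hat _ (hyF i) _ (hzU _ (hyF i))) (hfy i)
      (hyr i) (hnd _ (hyF i) (hyb i) (hyl i).1) (hzl i) (by rw [hij]; exact hzl j) haa htt
      (fun n => (hE i n).1) (fun n => by rw [hij]; exact (hE j n).1) (fun n hn => hne ?_)
    apply hxi (θ (n + n₀))
    have g1 := (hgood i n).2.1
    have g2 := (hgood j n).2.1
    rw [← hij] at g2
    rw [← g1, ← g2, hn]
  have h1 : ((m + 1 : ℕ) : ℕ∞) ≤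
      {p : E4 | p ∈ F ∧ 0 < p 3 ∧ IsLocalMaxOn (fun x => H (pr3 x)) F p}.encard := by
    have h2 : ((Finset.univ.map ⟨y, hyi⟩ : Finset E4) : Set E4) ⊆
        {p : E4 | p ∈ F ∧ 0 < p 3 ∧ IsLocalMaxOn (fun x => H (pr3 x)) F p} := by
      intro z hz
      simp only [Finset.coe_map, Function.Embedding.coeFn_mk, Finset.coe_univ, image_univ,
        mem_range] at hz
      obtain ⟨i, rfl⟩ := hz
      exact ⟨hyF i, hyb i, hymax i⟩
    have h3 := Set.encard_le_encard h2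
    rw [Set.encard_coe_eq_coe_finsetCard] at h3
    simpa using h3
  have h2 := h1.trans hmax
  have h3 : m + 1 ≤ m := by exact_mod_cast h2
  omega

end Pool.Agent.Q196.HS
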