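import Pool.Agent.Q196.HS.SurfDefs

/-!
Compact surfaces in the half-space and functions on three-space.
-/

set_option autoImplicit false

namespace Pool.Agent.Q196.HS

open scoped ContDiff RealInnerProductSpace ENNReal Topology
open MeasureTheory Set Metric Filter Pool.Agent.Y503.RB Pool.Agent.Q196.SR Pool.Agent.Q196.RG

/-- Domain on which the vertical map is a diffeomorphism onto its image. -/
def dom (b : ℝ) : Set E4 := {x | 0 < 1 + b * x 3}

theorem isOpen_dom (b : ℝ) : IsOpen (dom b) :=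
  isOpen_lt continuous_const (continuous_const.add (continuous_const.mul
    three_smooth.continuous))

theorem Vert.open_image {θ : E4 → ℝ} {b : ℝ} (h : Vert θ b) {V : Set E4} (hV : IsOpen V)
    (hVd : V ⊆ dom b) : IsOpen (Gv θ '' V) := by
  rw [isOpen_iff_mem_nhds]
  rintro _ ⟨x, hx, rfl⟩
  have h1 : HasStrictFDerivAt (Gv θ) (fderiv ℝ (Gv θ) x) x := by
    have h2 : ContDiffAt ℝ 1 (Gv θ) x :=
      ((Gv_smooth h.smooth).contDiffAt).of_le (by exact_mod_cast le_top)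
    exact h2.hasStrictFDerivAt (by simp)
  have h2 : LinearMap.range (fderiv ℝ (Gv θ) x : E4 →ₗ[ℝ] E4) = ⊤ :=
    LinearMap.range_eq_top.mpr (LinearMap.surjective_of_injective
      (f := (fderiv ℝ (Gv θ) x : E4 →ₗ[ℝ] E4)) (h.imm (hVd hx)))
  rw [← h1.map_nhds_eq_of_surj h2]
  exact image_mem_map (hV.mem_nhds hx)

theorem Vert.emb {θ : E4 → ℝ} {b : ℝ} (h : Vert θ b) :
    Topology.IsOpenEmbedding (fun x : dom b => Gv θ x) := by
  refine Topology.IsOpenEmbedding.of_continuous_injective_isOpenMap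
    ((Gv_smooth h.smooth).continuous.comp continuous_subtype_val) ?_ ?_
  · intro x y hxy
    exact Subtype.ext (h.injOn x.2 y.2 hxy)
  · intro S hS
    have h1 : (fun x : dom b => Gv θ x) '' S = Gv θ '' (Subtype.val '' S) := by
      rw [image_image]
    rw [h1]
    refine h.open_image ((isOpen_dom b).isOpenMap_subtype_val _ hS) ?_
    rintro _ ⟨x, -, rfl⟩
    exact x.2

theorem HPatch.mono {φ : ℂ → E4} {U U' : Set ℂ} (h : HPatch φ U) (hU : IsOpen U')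
    (hs : U' ⊆ U) : HPatch φ U' where
  isOpen := hU
  smooth := h.smooth.mono hs
  imm := fun z hz => h.imm z (hs hz)
  emb := by
    have h1 : (fun z : U' => φ z) = (fun z : U => φ z) ∘ (Set.inclusion hs) := rfl
    rw [h1]
    exact h.emb.comp (Topology.IsEmbedding.inclusion hs)
  trans := fun z hz => h.trans z (hs hz)

theorem HPatch.comp {θ : E4 → ℝ} {b : ℝ} (hθ : Vert θ b) {φ : ℂ → E4} {U : Set ℂ}
    (h : HPatch φ U) (hd : ∀ z ∈ U, φ z ∈ dom b) : HPatch (fun w => Gv θ (φ w)) U where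
  isOpen := h.isOpen
  smooth := (Gv_smooth hθ.smooth).comp_contDiffOn h.smooth
  imm := fun z hz => by
    have h1 : fderiv ℝ (fun w => Gv θ (φ w)) z = (fderiv ℝ (Gv θ) (φ z)).comp (fderiv ℝ φ z) :=
      fderiv_comp z ((Gv_smooth hθ.smooth).differentiable (by simp) _)
        ((h.smooth.contDiffAt (h.isOpen.mem_nhds hz)).differentiableAt (by simp))
    rw [h1]
    exact (hθ.imm (hd z hz)).comp (h.imm z hz)
  emb := by
    have h1 : Topology.IsEmbedding (fun z : U => (⟨φ z, hd z z.2⟩ : dom b)) :=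
      h.emb.codRestrict (dom b) (fun z => hd z z.2)
    exact hθ.emb.isEmbedding.comp h1
  trans := fun z hz h0 => by
    rw [Gv_three] at h0
    have h1 : φ z 3 = 0 := (mul_eq_zero.mp h0).resolve_right (Real.exp_pos _).ne'
    have hφ : ContDiffAt ℝ ∞ φ z := h.smooth.contDiffAt (h.isOpen.mem_nhds hz)
    have h2 : (fun w => Gv θ (φ w) 3) = fun w => φ w 3 * Real.exp (-θ (φ w)) :=
      funext fun w => Gv_three θ _
    have h3 : HasFDerivAt (fun w => φ w 3) (fderiv ℝ (fun w => φ w 3) z) z :=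
      ((ht_at hφ).differentiableAt (by simp)).hasFDerivAt
    have h4 : DifferentiableAt ℝ (fun w => Real.exp (-θ (φ w))) z :=
      ((hθ.smooth.contDiffAt.comp z hφ).neg.exp).differentiableAt (by simp)
    have h5 : HasFDerivAt (fun w => φ w 3 * Real.exp (-θ (φ w))) _ z := h3.mul h4.hasFDerivAt
    rw [h2, h5.fderiv, h1, zero_smul, zero_add]
    exact smul_ne_zero (Real.exp_pos _).ne' (h.trans z hz h1)

theorem Vert.mem_dom {θ : E4 → ℝ} {b : ℝ} (h : Vert θ b) {x : E4} (hx : 0 ≤ x 3) : x ∈ dom b := by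
  have := h.pos
  show 0 < 1 + b * x 3
  positivity

theorem Gv_nonneg {θ : E4 → ℝ} {x : E4} : 0 ≤ Gv θ x 3 ↔ 0 ≤ x 3 := by
  rw [Gv_three]
  constructor
  · intro h
    exact nonneg_of_mul_nonneg_left h (Real.exp_pos _)
  · intro h
    exact mul_nonneg h (Real.exp_pos _).le

theorem Gv_pos {θ : E4 → ℝ} {x : E4} : 0 < Gv θ x 3 ↔ 0 < x 3 := by
  rw [Gv_three]
  constructor
  · intro h
    exact pos_of_mul_pos_left h (Real.exp_pos _).le
  · intro h
    exact mul_pos h (Real.exp_pos _)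

/-- Transfer of surfaces. -/
theorem HSurf.comp {F : Set E4} (h : HSurf F) {θ : E4 → ℝ} {b : ℝ} (hθ : Vert θ b) :
    HSurf (Gv θ '' F) where
  compact := h.compact.image (Gv_smooth hθ.smooth).continuous
  sub := by
    rintro _ ⟨x, hx, rfl⟩
    exact Gv_nonneg.mpr (h.sub x hx)
  loc := by
    rintro _ ⟨p, hp, rfl⟩
    obtain ⟨φ, U, V, hB, hV, hpV, hFV⟩ := h.loc p hp
    have hc : ContinuousOn φ U := hB.smooth.continuousOn
    have hO : IsOpen (U ∩ φ ⁻¹' dom b) := hc.isOpen_inter_preimage hB.isOpen (isOpen_dom b)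
    refine ⟨fun w => Gv θ (φ w), U ∩ φ ⁻¹' dom b, Gv θ '' (V ∩ dom b),
      (hB.mono hO inter_subset_left).comp hθ (fun z hz => hz.2),
      hθ.open_image (hV.inter (isOpen_dom b)) inter_subset_right,
      ⟨p, ⟨hpV, hθ.mem_dom (h.sub p hp)⟩, rfl⟩, ?_⟩
    ext y
    constructor
    · rintro ⟨⟨x, hx, rfl⟩, x', ⟨hx'V, hx'd⟩, hxx⟩
      have h1 : x' = x := hθ.injOn hx'd (hθ.mem_dom (h.sub x hx)) hxx
      rw [h1] at hx'V
      have h2 : x ∈ φ '' U ∩ {x | 0 ≤ x 3} := by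
        rw [← hFV]
        exact ⟨hx, hx'V⟩
      obtain ⟨⟨w, hw, rfl⟩, h3⟩ := h2
      exact ⟨⟨w, ⟨hw, hθ.mem_dom h3⟩, rfl⟩, Gv_nonneg.mpr h3⟩
    · rintro ⟨⟨w, ⟨hw, hwd⟩, rfl⟩, h3⟩
      have h4 : 0 ≤ φ w 3 := Gv_nonneg.mp h3
      have h2 : φ w ∈ F ∩ V := by
        rw [hFV]
        exact ⟨⟨w, hw, rfl⟩, h4⟩
      exact ⟨⟨φ w, h2.1, rfl⟩, φ w, ⟨h2.2, hwd⟩, rfl⟩

/-- Charts at positive heights. -/
theorem loc_pos {F : Set E4} (h : HSurf F) {p : E4} (hp : p ∈ F) (hp3 : 0 < p 3) :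
    ∃ (φ : ℂ → E4) (U : Set ℂ) (V : Set E4), HPatch φ U ∧ (∀ z ∈ U, 0 < φ z 3) ∧ IsOpen V ∧
      p ∈ V ∧ F ∩ V = φ '' U := by
  obtain ⟨φ, U, V, hB, hV, hpV, hFV⟩ := h.loc p hp
  have hc : ContinuousOn (fun z => φ z 3) U :=
    three_smooth.continuous.comp_continuousOn hB.smooth.continuousOn
  have hO : IsOpen (U ∩ (fun z => φ z 3) ⁻¹' Ioi 0) := hc.isOpen_inter_preimage hB.isOpen isOpen_Ioi
  refine ⟨φ, U ∩ (fun z => φ z 3) ⁻¹' Ioi 0, V ∩ {x | 0 < x 3}, hB.mono hO inter_subset_left,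
    fun z hz => hz.2, hV.inter (isOpen_lt continuous_const three_smooth.continuous),
    ⟨hpV, hp3⟩, ?_⟩
  ext x
  constructor
  · rintro ⟨hxF, hxV, hx3⟩
    have h2 : x ∈ φ '' U ∩ {x | 0 ≤ x 3} := by
      rw [← hFV]
      exact ⟨hxF, hxV⟩
    obtain ⟨⟨w, hw, rfl⟩, -⟩ := h2
    exact ⟨w, ⟨hw, hx3⟩, rfl⟩
  · rintro ⟨w, ⟨hw, hw3⟩, rfl⟩
    have hw3' : 0 < φ w 3 := hw3
    have h2 : φ w ∈ F ∩ V := by
      rw [hFV]
      exact ⟨⟨w, hw, rfl⟩, hw3'.le⟩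
    exact ⟨h2.1, h2.2, hw3'⟩

/-- Countable family of charts at positive heights. -/
theorem lpH {F : Set E4} (h : HSurf F) : ∃ (ψ : ℕ → ℂ → E4) (U : ℕ → Set ℂ) (V : ℕ → Set E4),
    (∀ i, HPatch (ψ i) (U i) ∧ (∀ z ∈ U i, 0 < ψ i z 3) ∧ IsOpen (V i) ∧
      F ∩ V i = ψ i '' U i) ∧ F ∩ {x | 0 < x 3} ⊆ ⋃ i, ψ i '' U i := by
  classical
  have hloc : ∀ p : E4, p ∈ F ∩ {x | 0 < x 3} → ∃ (φ : ℂ → E4) (U : Set ℂ) (V : Set E4),
      HPatch φ U ∧ (∀ z ∈ U, 0 < φ z 3) ∧ IsOpen V ∧ p ∈ V ∧ F ∩ V = φ '' U := fun p hp =>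
    loc_pos h hp.1 hp.2
  choose! φ U V hB hP hV hpV hFV using hloc
  obtain ⟨T, hT, hTU⟩ := TopologicalSpace.isOpen_iUnion_countable
    (fun p : {p : E4 // p ∈ F ∩ {x | 0 < x 3}} => V p) (fun p => hV p p.2)
  have : Countable T := hT.to_subtype
  obtain ⟨f, hf⟩ := exists_surjective_nat (Option T)
  have hemp : HPatch (0 : ℂ → E4) ∅ :=
    ⟨isOpen_empty, contDiffOn_empty, fun z hz => hz.elim,
      Topology.IsEmbedding.of_subsingleton _, fun z hz => hz.elim⟩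
  refine ⟨fun i => (f i).elim 0 fun t => φ t.1.1, fun i => (f i).elim ∅ fun t => U t.1.1,
    fun i => (f i).elim ∅ fun t => V t.1.1, ?_, ?_⟩
  · intro i
    rcases h : f i with _ | t
    · simp only [h, Option.elim_none]
      exact ⟨hemp, fun z hz => hz.elim, isOpen_empty, by simp⟩
    · simp only [h, Option.elim_some]
      exact ⟨hB _ t.1.2, hP _ t.1.2, hV _ t.1.2, hFV _ t.1.2⟩
  · intro p hp
    have h1 : p ∈ ⋃ i : {p : E4 // p ∈ F ∩ {x | 0 < x 3}}, V i :=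
      mem_iUnion.mpr ⟨⟨p, hp⟩, hpV p hp⟩
    rw [← hTU] at h1
    obtain ⟨t, ht, hpt⟩ := mem_iUnion₂.mp h1
    obtain ⟨i, hi⟩ := hf (some ⟨t, ht⟩)
    refine mem_iUnion.mpr ⟨i, ?_⟩
    simp only [hi, Option.elim_some]
    have h2 : p ∈ F ∩ V t := ⟨hp.1, hpt⟩
    rw [hFV _ t.2] at h2
    exact h2

/-- Compact surfaces in the half-space and functions on three-space. -/
theorem proj_surf {F : Set E4} (hF : HSurf F) {H : E3 → ℝ} (hH : ContDiff ℝ ∞ H)
    (hm : MorseOnH H F) {m : ℕ}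
    (hmax : {p : E4 | p ∈ F ∧ 0 < p 3 ∧ IsLocalMaxOn (fun x => H (pr3 x)) F p}.encard ≤ m) :
    ∃ G : E4 → E4, HalfDiffeo G ∧ HSurf (G '' F) ∧
      G '' F ∩ {x | x 3 = 0} = F ∩ {x | x 3 = 0} ∧ MorseHSurf (G '' F) m := by
  classical
  obtain ⟨N, hN⟩ := closeH hF hH hm hmax
  set t : ℝ := (N : ℝ) + 1 with ht_def
  have ht : 0 < t := by positivity
  obtain ⟨ψ, U, V, hall, hcov⟩ := lpH hF
  obtain ⟨ρ, hρ0, hρ⟩ := hF.compact.isBounded.exists_pos_norm_lt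
  have hψF : ∀ i, ∀ z ∈ U i, ψ i z ∈ F := fun i z hz => by
    have : ψ i z ∈ ψ i '' U i := ⟨z, hz, rfl⟩
    rw [← (hall i).2.2.2] at this
    exact this.1
  have hhs : ContDiff ℝ ∞ (fun x : E4 => H (pr3 x)) := hH.comp pr3_smooth
  choose B hB0 hB using fun i => ae_nondegH (h := fun x => H (pr3 x)) ht (hall i).1.isOpen
    (hall i).1.smooth (hall i).1.imm (hall i).2.1 hρ0 (fun z hz => hρ _ (hψF i z hz))
    (fun z _ => hhs.contDiffAt)
  obtain ⟨a, han, ha3, haB⟩ := exists_param_neg (measure_iUnion_null hB0)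
    (by positivity : 0 < 1 / t)
  have haB' : ∀ i, a ∉ B i := fun i h => haB (mem_iUnion.mpr ⟨i, h⟩)
  have hV := vert_lin hH ht ha3
  set θ : E4 → ℝ := fun x => t * (H (pr3 x) + ⟪a, x⟫) with hθ
  set b : ℝ := -(t * a 3) with hb
  refine ⟨Gv θ, hV.half, hF.comp hV, ?_, ?_, ?_⟩
  · ext y
    constructor
    · rintro ⟨⟨x, hx, rfl⟩, h0⟩
      have h1 : x 3 = 0 := by
        have h2 : Gv θ x 3 = 0 := h0
        rw [Gv_three] at h2
        exact (mul_eq_zero.mp h2).resolve_right (Real.exp_pos _).ne'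
      rw [hV.half.fix x h1]
      exact ⟨hx, h1⟩
    · rintro ⟨hx, h0⟩
      exact ⟨⟨y, hx, hV.half.fix y h0⟩, h0⟩
  · rintro _ ⟨p, hp, rfl⟩ hp3
    have hp3' : 0 < p 3 := Gv_pos.mp hp3
    obtain ⟨i, hi⟩ := mem_iUnion.mp (hcov ⟨hp, hp3'⟩)
    obtain ⟨z, hz, rfl⟩ := hi
    have hzV : ψ i z ∈ V i := by
      have : ψ i z ∈ ψ i '' U i := ⟨z, hz, rfl⟩
      rw [← (hall i).2.2.2] at this
      exact this.2
    refine ⟨fun w => Gv θ (ψ i w), U i, Gv θ '' (V i ∩ dom b), z,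
      (hall i).1.comp hV (fun w hw => hV.mem_dom ((hall i).2.1 w hw).le),
      hV.open_image ((hall i).2.2.1.inter (isOpen_dom b)) inter_subset_right,
      ⟨ψ i z, ⟨hzV, hV.mem_dom hp3'.le⟩, rfl⟩, ?_, hz, rfl, ?_⟩
    · ext y
      constructor
      · rintro ⟨⟨x, hx, rfl⟩, x', ⟨hx'V, hx'd⟩, hxx⟩
        have h1 : x' = x := hV.injOn hx'd (hV.mem_dom (hF.sub x hx)) hxx
        rw [h1] at hx'V
        have h2 : x ∈ ψ i '' U i := by
          rw [← (hall i).2.2.2]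
          exact ⟨hx, hx'V⟩
        obtain ⟨w, hw, rfl⟩ := h2
        exact ⟨w, hw, rfl⟩
      · rintro ⟨w, hw, rfl⟩
        have h2 : ψ i w ∈ F ∩ V i := by
          rw [(hall i).2.2.2]
          exact ⟨w, hw, rfl⟩
        exact ⟨⟨ψ i w, h2.1, rfl⟩, ψ i w, ⟨h2.2, hV.mem_dom ((hall i).2.1 w hw).le⟩, rfl⟩
    · have hfun : (fun w => Gv θ (ψ i w) 3) =
          PR (fun w => ψ i w 3) (ψ i) (fun w => H (pr3 (ψ i w))) t a := funext fun w => Gv_three _ _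
      rw [hfun]
      exact fun hc u hu => hB i a (haB' i) z hz hc u hu
  · have hsub : {p' : E4 | p' ∈ Gv θ '' F ∧ 0 < p' 3 ∧ IsLocalMinOn (fun x => x 3) (Gv θ '' F) p'} ⊆
        Gv θ '' {p : E4 | p ∈ F ∧ 0 < p 3 ∧
          IsLocalMinOn (fun x => x 3 * Real.exp (-(t * (H (pr3 x) + ⟪a, x⟫)))) F p} := by
      rintro _ ⟨⟨p, hp, rfl⟩, hp1, hp2⟩
      refine ⟨p, ⟨hp, Gv_pos.mp hp1, ?_⟩, rfl⟩
      have hcont : ContinuousAt (Gv θ) p := (Gv_smooth hV.smooth).continuous.continuousAt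
      have h1 : Tendsto (Gv θ) (𝓝[F] p) (𝓝[Gv θ '' F] (Gv θ p)) :=
        tendsto_nhdsWithin_iff.mpr ⟨hcont.continuousWithinAt,
          by filter_upwards [self_mem_nhdsWithin] with x hx using ⟨x, hx, rfl⟩⟩
      have h2 := h1.eventually hp2
      filter_upwards [h2] with x hx
      have hx' : Gv θ p 3 ≤ Gv θ x 3 := hx
      rw [Gv_three, Gv_three] at hx'
      exact hx'
    exact (encard_le_encard hsub).trans ((encard_image_le _ _).trans (hN t a le_rfl han.le))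

end Pool.Agent.Q196.HS
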