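import Pool.Agent.Q196.HS.SurfP
import Pool.Agent.Q196.HS.DiscT

/-!
Compact surfaces in the half-space whose projection to three-space has small total positive
curvature.
-/

set_option autoImplicit false

namespace Pool.Agent.Q196.HS

open scoped ContDiff RealInnerProductSpace ENNReal Topology
open MeasureTheory Set Metric Filter Pool.Agent.Y503.RB Pool.Agent.Q196.SR Pool.Agent.Q196.RG

/-- Points of the surface `F` at which its tangent plane is vertical. -/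
def VertSet (F : Set E4) : Set E4 :=
  {p | ∃ (φ : ℂ → E4) (U : Set ℂ) (z : ℂ), HPatch φ U ∧ φ '' U ∩ {x | 0 ≤ x 3} ⊆ F ∧ z ∈ U ∧
    0 ≤ φ z 3 ∧ φ z = p ∧ ¬ Function.Injective (fderiv ℝ (fun w => pr3 (φ w)) z)}

/-- Total positive Gauss curvature of the vertical projection of `F` to three-space: infimum over
all countable families of parametrised pieces of `F` at positive heights which cover the part of
`F` at positive heights. -/
noncomputable def surfPosCurv (F : Set E4) : ℝ≥0∞ :=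
  ⨅ (φ : ℕ → ℂ → E4) (U : ℕ → Set ℂ) (A : ℕ → Set ℂ)
    (_ : (∀ i, HPatch (φ i) (U i) ∧ (∀ z ∈ U i, 0 < φ i z 3) ∧ φ i '' U i ⊆ F ∧
      MeasurableSet (A i) ∧ A i ⊆ U i) ∧ F ∩ {x | 0 < x 3} ⊆ ⋃ i, φ i '' A i),
    ∑' i, ∫⁻ z in A i, posCurvAt (fun w => pr3 (φ i w)) z

/-- Exceptional directions of a piece. -/
def Zof (c : ℝ) (φ : ℂ → E4) (U : Set ℂ) : Set E4 :=
  {y | ∃ z ∈ U, 0 ≤ φ z 3 ∧ ¬ Function.Injective (fderiv ℝ (fun w => pr3 (φ w)) z) ∧
    ∀ u : ℂ, (⟪y, fderiv ℝ (fun w => c • flatL (φ w)) z u⟫ : ℝ) = 0} ∪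
  {y | ∃ z ∈ U, φ z 3 = 0 ∧ Function.Injective (fderiv ℝ (fun w => pr3 (φ w)) z) ∧
    ∀ u : ℂ, (⟪y, fderiv ℝ (fun w => c • flatL (φ w)) z u⟫ : ℝ) = 0}

/-- The part of the piece with injective projected derivative. -/
def Uinj (c : ℝ) (φ : ℂ → E4) (U : Set ℂ) : Set ℂ :=
  (U ∩ fderiv ℝ (fun w => c • flatL (φ w)) ⁻¹' {f | Function.Injective f}) ∩
    (U ∩ (fun z => ‖c • flatL (φ z)‖) ⁻¹' Iio 1)

theorem patch_inj {φ : ℂ → E4} {U : Set ℂ} (h : HPatch φ U) (c : ℝ) :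
    Patch (fun w => c • flatL (φ w)) (Uinj c φ U) := by
  have hψs : ContDiffOn ℝ ∞ (fun w => c • flatL (φ w)) U :=
    (flatL.contDiff.comp_contDiffOn h.smooth).const_smul c
  have hcf : ContinuousOn (fderiv ℝ (fun w => c • flatL (φ w))) U :=
    hψs.continuousOn_fderiv_of_isOpen h.isOpen (by simp)
  have hO1 := hcf.isOpen_inter_preimage h.isOpen
    (ContinuousLinearMap.isOpen_injective (𝕜 := ℝ) (E := ℂ) (F := E4))
  have hO2 := hψs.continuousOn.norm.isOpen_inter_preimage h.isOpen isOpen_Iio (t := Iio 1)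
  exact ⟨hO1.inter hO2, hψs.mono fun z hz => hz.1.1, fun z hz => hz.1.2, fun z hz => hz.2.2⟩

theorem hp_diff {φ : ℂ → E4} {U : Set ℂ} (h : HPatch φ U) {z : ℂ} (hz : z ∈ U) :
    DifferentiableAt ℝ φ z :=
  (h.smooth.contDiffAt (h.isOpen.mem_nhds hz)).differentiableAt (by simp)

theorem mem_Uinj {φ : ℂ → E4} {U : Set ℂ} (h : HPatch φ U) {c : ℝ} (hc : 0 < c) {z : ℂ}
    (hz : z ∈ U) (hn : ‖c • flatL (φ z)‖ < 1)
    (hi : Function.Injective (fderiv ℝ (fun w => pr3 (φ w)) z)) : z ∈ Uinj c φ U :=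
  ⟨⟨hz, (inj_iff (hp_diff h hz) hc).mpr hi⟩, hz, hn⟩

theorem Zof_null {F : Set E4} {φ : ℂ → E4} {U : Set ℂ} (h : HPatch φ U)
    (hs : φ '' U ∩ {x | 0 ≤ x 3} ⊆ F) (hC : (VertSet F).Countable) {c : ℝ} (hc : 0 < c)
    (hn : ∀ x ∈ F, ‖c • flatL x‖ < 1) : volume (Zof c φ U) = 0 := by
  have hinj : InjOn φ U := by
    intro a ha b hb hab
    have : (⟨a, ha⟩ : U) = ⟨b, hb⟩ := h.emb.injective hab
    exact congrArg Subtype.val this
  refine measure_union_null ?_ ?_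
  · set C : Set ℂ := {z | z ∈ U ∧ 0 ≤ φ z 3 ∧
      ¬ Function.Injective (fderiv ℝ (fun w => pr3 (φ w)) z)} with hCd
    have hCc : C.Countable := by
      refine Set.countable_of_injective_of_countable_image (f := φ)
        (hinj.mono fun z hz => hz.1) (hC.mono ?_)
      rintro _ ⟨z, hz, rfl⟩
      exact ⟨φ, U, z, h, hs, hz.1, hz.2.1, rfl, hz.2.2⟩
    have hsub : {y : E4 | ∃ z ∈ U, 0 ≤ φ z 3 ∧
        ¬ Function.Injective (fderiv ℝ (fun w => pr3 (φ w)) z) ∧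
        ∀ u : ℂ, (⟪y, fderiv ℝ (fun w => c • flatL (φ w)) z u⟫ : ℝ) = 0} ⊆
        ⋃ z ∈ C, {y : E4 | ∀ u : ℂ, (⟪y, fderiv ℝ (fun w => c • flatL (φ w)) z u⟫ : ℝ) = 0} := by
      rintro y ⟨z, hz, h1, h2, h3⟩
      exact mem_iUnion₂.mpr ⟨z, ⟨hz, h1, h2⟩, h3⟩
    refine measure_mono_null hsub ((measure_biUnion_null_iff hCc).mpr fun z hz => ?_)
    obtain ⟨u, hu⟩ := flat_ne (h.imm z hz.1)
    refine measure_mono_null (fun y hy => hy u)
      (hyp_null (w := fderiv ℝ (fun w => c • flatL (φ w)) z u) ?_)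
    rw [flat_fderiv (hp_diff h hz.1)]
    exact smul_ne_zero hc.ne' hu
  · have hS : volume {z | z ∈ U ∧ φ z 3 = 0} = 0 :=
      null_level (f := fun w => φ w 3)
        (fun z hz => (ht_at (h.smooth.contDiffAt (h.isOpen.mem_nhds hz.1))).differentiableAt
          (by simp)) (fun z hz => h.trans z hz.1 hz.2) (fun z hz w hw => by
            show φ w 3 = φ z 3
            rw [hz.2, hw.2])
    refine measure_mono_null ?_ (nrm_null (patch_inj h c) hS)
    rintro y ⟨z, hz, h1, h2, h3⟩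
    refine ⟨z, mem_Uinj h hc hz (hn _ (hs ⟨⟨z, hz, rfl⟩, h1.ge⟩)) h2, ⟨hz, h1⟩, h3⟩

theorem curv_surfH {F : Set E4} (hF : HSurf F) (m : ℕ) (hC : (VertSet F).Countable)
    (hT : surfPosCurv F < ENNReal.ofReal (4 * Real.pi * (m + 1))) :
    ∃ G : E4 → E4, HalfDiffeo G ∧ HSurf (G '' F) ∧
      G '' F ∩ {x | x 3 = 0} = F ∩ {x | x 3 = 0} ∧ MorseHSurf (G '' F) m := by
  classical
  simp only [surfPosCurv, iInf_lt_iff] at hT
  obtain ⟨φ, U, A, ⟨hall, hcov⟩, hT⟩ := hT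
  obtain ⟨ψ, U₂, V₂, hall₂, hcov₂⟩ := lpH hF
  choose! χ Uχ Vχ hχB hχV hχp hχF using hF.loc
  obtain ⟨T, hTcov⟩ := hF.compact.elim_nhds_subcover' (fun p _ => Vχ p)
    (fun p hp => (hχV p hp).mem_nhds (hχp p hp))
  obtain ⟨ρ, hρ0, hρ⟩ := (hF.compact.image flatL.continuous).isBounded.exists_pos_norm_lt
  set c : ℝ := ρ⁻¹ with hcd
  have hc0 : 0 < c := inv_pos.mpr hρ0
  have hn : ∀ x ∈ F, ‖c • flatL x‖ < 1 := by
    intro x hx
    rw [norm_smul, Real.norm_eq_abs, abs_of_pos hc0, inv_mul_lt_iff₀ hρ0, mul_one]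
    exact hρ _ ⟨x, hx, rfl⟩
  have hsφ : ∀ i, φ i '' U i ∩ {x | 0 ≤ x 3} ⊆ F := fun i => inter_subset_left.trans (hall i).2.2.1
  have hψF : ∀ i, ψ i '' U₂ i ⊆ F := fun i => by
    rw [← (hall₂ i).2.2.2]
    exact inter_subset_left
  have hsψ : ∀ i, ψ i '' U₂ i ∩ {x | 0 ≤ x 3} ⊆ F := fun i => inter_subset_left.trans (hψF i)
  have hsχ : ∀ p ∈ F, χ p '' Uχ p ∩ {x | 0 ≤ x 3} ⊆ F := fun p hp => by
    rw [← hχF p hp]
    exact inter_subset_left
  set Z : Set E4 := ((⋃ i, Zof c (φ i) (U i)) ∪ (⋃ i, Zof c (ψ i) (U₂ i))) ∪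
    ⋃ p ∈ T, Zof c (χ p) (Uχ p) with hZd
  have hZ : volume Z = 0 := by
    refine measure_union_null (measure_union_null ?_ ?_) ?_
    · exact measure_iUnion_null fun i => Zof_null (hall i).1 (hsφ i) hC hc0 hn
    · exact measure_iUnion_null fun i => Zof_null (hall₂ i).1 (hsψ i) hC hc0 hn
    · refine (measure_biUnion_null_iff T.countable_toSet).mpr fun p hp => ?_
      exact Zof_null (hχB p p.2) (hsχ p p.2) hC hc0 hn
  have hT' : ∑' i : ℕ ⊕ ℕ, ∫⁻ z in Sum.elim (fun i => A i ∩ Uinj c (φ i) (U i))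
      (fun _ => (∅ : Set ℂ)) i, ncurvAt (Sum.elim (fun i w => c • flatL (φ i w))
        (fun i w => c • flatL (ψ i w)) i) z < ENNReal.ofReal (2 * Real.pi ^ 2 * (m + 1)) := by
    rw [Summable.tsum_sum ENNReal.summable ENNReal.summable]
    simp only [Sum.elim_inl, Sum.elim_inr, Measure.restrict_empty, lintegral_zero_measure,
      tsum_zero, add_zero]
    calc ∑' i, ∫⁻ z in A i ∩ Uinj c (φ i) (U i), ncurvAt (fun w => c • flatL (φ i w)) z
        ≤ ∑' i, ENNReal.ofReal (Real.pi / 2) * ∫⁻ z in A i,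
            posCurvAt (fun w => pr3 (φ i w)) z := by
          refine ENNReal.tsum_le_tsum fun i => ?_
          calc ∫⁻ z in A i ∩ Uinj c (φ i) (U i), ncurvAt (fun w => c • flatL (φ i w)) z
              ≤ ∫⁻ z in A i ∩ Uinj c (φ i) (U i), ENNReal.ofReal (Real.pi / 2) *
                  posCurvAt (fun w => pr3 (φ i w)) z := by
                refine setLIntegral_mono' ((hall i).2.2.2.1.inter
                  (patch_inj (hall i).1 c).isOpen.measurableSet) fun z hz => ?_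
                have hzU : z ∈ U i := hz.2.1.1
                exact ncurv_flat ((hall i).1.smooth.contDiffAt ((hall i).1.isOpen.mem_nhds hzU))
                  hc0 ((inj_iff (hp_diff (hall i).1 hzU) hc0).mp hz.2.1.2)
            _ = ENNReal.ofReal (Real.pi / 2) * ∫⁻ z in A i ∩ Uinj c (φ i) (U i),
                  posCurvAt (fun w => pr3 (φ i w)) z :=
                lintegral_const_mul' _ _ ENNReal.ofReal_ne_top
            _ ≤ ENNReal.ofReal (Real.pi / 2) * ∫⁻ z in A i, posCurvAt (fun w => pr3 (φ i w)) z :=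
                mul_le_mul_right (lintegral_mono_set inter_subset_left) _
      _ = ENNReal.ofReal (Real.pi / 2) * ∑' i, ∫⁻ z in A i,
            posCurvAt (fun w => pr3 (φ i w)) z := ENNReal.tsum_mul_left
      _ < ENNReal.ofReal (Real.pi / 2) * ENNReal.ofReal (4 * Real.pi * (m + 1)) := by
          refine ENNReal.mul_lt_mul_right ?_ ENNReal.ofReal_ne_top hT
          simp [Real.pi_pos]
      _ = ENNReal.ofReal (2 * Real.pi ^ 2 * (m + 1)) := by
          rw [← ENNReal.ofReal_mul (by positivity)]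
          congr 1
          ring
  obtain ⟨v, r, hv, hr, hrZ, hmorse, hmax⟩ := good_dirs (ι := ℕ ⊕ ℕ)
    (φ := Sum.elim (fun i w => c • flatL (φ i w)) (fun i w => c • flatL (ψ i w)))
    (U := Sum.elim (fun i => Uinj c (φ i) (U i)) (fun i => Uinj c (ψ i) (U₂ i)))
    (A := Sum.elim (fun i => A i ∩ Uinj c (φ i) (U i)) (fun _ => (∅ : Set ℂ)))
    (by
      rintro (i | i)
      · exact patch_inj (hall i).1 c
      · exact patch_inj (hall₂ i).1 c)
    (by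
      rintro (i | i)
      · exact (hall i).2.2.2.1.inter (patch_inj (hall i).1 c).isOpen.measurableSet
      · exact MeasurableSet.empty)
    (by
      rintro (i | i)
      · exact inter_subset_right
      · exact empty_subset _)
    m Z hZ hT'
  have hfun : ∀ χ : ℂ → E4, (fun w => c * (⟪pr3 v, pr3 (χ w)⟫ : ℝ)) =
      fun w => (⟪v, c • flatL (χ w)⟫ : ℝ) := by
    intro χ
    funext w
    rw [inner_smul_right, inner_flat]
  have hperp : ∀ (χ : ℂ → E4) (U : Set ℂ), HPatch χ U → ∀ z ∈ U,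
      fderiv ℝ (fun w => (⟪v, c • flatL (χ w)⟫ : ℝ)) z = 0 →
      ∀ u : ℂ, (⟪r • v, fderiv ℝ (fun w => c • flatL (χ w)) z u⟫ : ℝ) = 0 := by
    intro χ U h z hz h0 u
    have hd : DifferentiableAt ℝ (fun w => c • flatL (χ w)) z :=
      (flatL.differentiableAt.comp z (hp_diff h hz)).const_smul c
    have h1 := inner_fderiv (φ := fun w => c • flatL (χ w)) hd v u
    rw [h0] at h1
    rw [inner_smul_left, ← h1]
    simp
  have hdich : ∀ (χ : ℂ → E4) (U : Set ℂ), HPatch χ U → Zof c χ U ⊆ Z → ∀ z ∈ U, 0 ≤ χ z 3 →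
      fderiv ℝ (fun w => (⟪v, c • flatL (χ w)⟫ : ℝ)) z = 0 →
      Function.Injective (fderiv ℝ (fun w => pr3 (χ w)) z) ∧ χ z 3 ≠ 0 := by
    intro χ U h hZs z hz h3 h0
    have hi : Function.Injective (fderiv ℝ (fun w => pr3 (χ w)) z) := by
      by_contra hi
      exact hrZ (hZs (Or.inl ⟨z, hz, h3, hi, hperp χ U h z hz h0⟩))
    exact ⟨hi, fun h4 => hrZ (hZs (Or.inr ⟨z, hz, h4, hi, hperp χ U h z hz h0⟩))⟩
  have hZφ : ∀ i, Zof c (φ i) (U i) ⊆ Z := fun i y hy =>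
    Or.inl (Or.inl (mem_iUnion.mpr ⟨i, hy⟩))
  have hZψ : ∀ i, Zof c (ψ i) (U₂ i) ⊆ Z := fun i y hy =>
    Or.inl (Or.inr (mem_iUnion.mpr ⟨i, hy⟩))
  have hZχ : ∀ p ∈ T, Zof c (χ p) (Uχ p) ⊆ Z := fun p hp y hy =>
    Or.inr (mem_iUnion₂.mpr ⟨p, hp, hy⟩)
  have hMo : MorseOnH (fun q => c * ⟪pr3 v, q⟫) F := by
    intro p hp
    rcases (hF.sub p hp).lt_or_eq with hlt | heq
    · obtain ⟨k, hk⟩ := mem_iUnion.mp (hcov₂ ⟨hp, hlt⟩)
      obtain ⟨z, hz, rfl⟩ := hk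
      have hV : ψ k z ∈ V₂ k := by
        have : ψ k z ∈ ψ k '' U₂ k := ⟨z, hz, rfl⟩
        rw [← (hall₂ k).2.2.2] at this
        exact this.2
      refine ⟨ψ k, U₂ k, V₂ k, z, (hall₂ k).1, (hall₂ k).2.2.1, hV, ?_, hz, rfl,
        fun h1 => absurd h1 hlt.ne', fun _ => ?_⟩
      · rw [(hall₂ k).2.2.2]
        refine (inter_eq_left.mpr ?_).symm
        rintro _ ⟨w, hw, rfl⟩
        exact ((hall₂ k).2.1 w hw).le
      · rw [hfun]
        intro h0
        obtain ⟨hi, -⟩ := hdich _ _ (hall₂ k).1 (hZψ k) z hz hlt.le h0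
        exact hmorse (Sum.inr k) z (mem_Uinj (hall₂ k).1 hc0 hz (hn _ hp) hi) h0
    · obtain ⟨q, hq, hpq⟩ := mem_iUnion₂.mp (hTcov hp)
      have h1 : p ∈ χ q '' Uχ q ∩ {x | 0 ≤ x 3} := by
        rw [← hχF q q.2]
        exact ⟨hp, hpq⟩
      obtain ⟨⟨z, hz, hzp⟩, -⟩ := h1
      refine ⟨χ q, Uχ q, Vχ q, z, hχB q q.2, hχV q q.2, hpq, hχF q q.2, hz, hzp,
        fun h3 => ?_, fun h2 => absurd heq h2.ne⟩
      rw [hfun]
      intro h0
      exact (hdich _ _ (hχB q q.2) (hZχ q hq) z hz (by rw [hzp, ← heq]) h0).2 (by rw [hzp, h3])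
  refine proj_surf hF (H := fun q => c * ⟪pr3 v, q⟫)
    (contDiff_const.mul (contDiff_const.inner ℝ contDiff_id)) hMo ?_
  refine encard_le_of_finset fun s hs' => ?_
  have hpt : ∀ q : E4, ∃ (i : ℕ) (z : ℂ), q ∈ s → z ∈ A i ∩ Uinj c (φ i) (U i) ∧ φ i z = q ∧
      IsLocalMax (fun w => (⟪v, c • flatL (φ i w)⟫ : ℝ)) z := by
    intro q
    by_cases hq : q ∈ s
    · obtain ⟨hqF, hq1, hq2⟩ := hs' q hq
      obtain ⟨i, hi⟩ := mem_iUnion.mp (hcov ⟨hqF, hq1⟩)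
      obtain ⟨z, hz, hzq⟩ := hi
      have hzU := (hall i).2.2.2.2 hz
      have hmx : IsLocalMax (fun w => (⟪v, c • flatL (φ i w)⟫ : ℝ)) z := by
        rw [← hfun]
        exact max_comp (f := fun x : E4 => c * (⟪pr3 v, pr3 x⟫ : ℝ)) (hall i).1.isOpen
          (hall i).1.smooth.continuousOn (hall i).2.2.1 hzU (by rwa [hzq])
      obtain ⟨h5, -⟩ := hdich _ _ (hall i).1 (hZφ i) z hzU ((hall i).2.1 z hzU).le
        hmx.fderiv_eq_zero
      refine ⟨i, z, fun _ => ⟨⟨hz, mem_Uinj (hall i).1 hc0 hzU ?_ h5⟩, hzq, hmx⟩⟩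
      rw [hzq]
      exact hn _ hqF
    · exact ⟨0, 0, fun h => absurd h hq⟩
  choose i z hiz using hpt
  have hcard : (s.image fun q => ((Sum.inl (i q) : ℕ ⊕ ℕ), z q)).card = s.card := by
    refine Finset.card_image_of_injOn ?_
    intro a ha b hb hab
    have h1 := (hiz a ha).2.1
    have h2 := (hiz b hb).2.1
    simp only [Prod.mk.injEq, Sum.inl.injEq] at hab
    rw [← h1, ← h2, hab.1, hab.2]
  rw [← hcard]
  refine hmax _ fun p hp => ?_
  obtain ⟨q, hq, rfl⟩ := Finset.mem_image.mp hp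
  obtain ⟨h1, h2, h3⟩ := hiz q hq
  exact ⟨h1, h3⟩

end Pool.Agent.Q196.HS
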